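import Pool.Agent.H94.A5.Ram

/-!
# Monomial characters of `Perm (Fin 13)`, given by tables
-/

open Module Equiv Equiv.Perm
open Pool.Agent.H7.Artin Pool.Agent.H58.S2 Pool.Agent.H72.A5

namespace Pool.Agent.H94.A5

set_option maxRecDepth 1000000

/-- generators of a group of order 768: (6 7)(10 12) with exponent 1, (9 10)(11 12), (2 4 6)(3 5 7), (0 4)(1 5)(2 6)(3 7), (0 2)(1 3)(4 6)(5 7), (2 3)(6 7), (4 5)(6 7), (9 11)(10 12), (0 1)(2 3)(4 5)(6 7) -/
def D24 : List (ℕ × ℕ × ℕ) := [(7525712149099024, 7525712149099024, 2), (3317950120735248, 3317950120735248, 2), (3582862564938768, 3582863130916368, 3), (3582862558262868, 3582862558262868, 2), (3582863135346738, 3582863135346738, 2), (3582863451890448, 3582863451890448, 2), (3582863450911248, 3582863450911248, 2), (2987065840251408, 2987065840251408, 2), (3582863450907393, 3582863450907393, 2)]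

def H24 : List (ℕ × ℤ) := [(3582662120129313, -64), (3566238121132833, -64), (3566305817199393, -12), (3582863702557473, -8), (3582799026389793, -56), (3582863446721313, -32), (3582799025356833, 32), (3582863703548673, 1), (3582863450907393, 23), (3566306347795233, 96), (3566306351981313, 39), (3582863701524513, 32), (3582862916125473, 12), (3582863703552528, 1)]

theorem col24 : MonoSum (Perm (Fin 13)) fun θ => ((768 : ℕ) : ℂ)⁻¹ * val θ H24 :=
  mono_col ram2 D24 768 H24 (by decide +kernel)

end Pool.Agent.H94.A5
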