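import Pool.Agent.H94.A5.Ram

/-!
# Monomial characters of `Perm (Fin 13)`, given by tables
-/

open Module Equiv Equiv.Perm
open Pool.Agent.H7.Artin Pool.Agent.H58.S2 Pool.Agent.H72.A5

namespace Pool.Agent.H94.A5

set_option maxRecDepth 1000000

/-- generators of a group of order 648: (3 4 5)(6 8 7), (10 11 12) with exponent 1, (1 4 2 8)(3 7 6 5), (1 3 2 6)(4 5 8 7), (1 2)(3 6)(4 8)(5 7), (0 3 6)(1 4 7)(2 5 8), (0 1 2)(3 4 5)(6 7 8) -/
def D18 : List (ℕ × ℕ × ℕ) := [(3582859171676688, 3582855397724688, 3), (7542205075173904, 12293194818794000, 3), (3582833351358528, 3582836877644928, 2), (3582858522601008, 3582851019117408, 2), (3582845938852128, 3582845938852128, 2), (3582836225828163, 3582849959659638, 3), (3582855396802593, 3582859172598018, 3)]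

def H18 : List (ℕ × ℤ) := [(3548839255818273, -112), (3582855396802593, 64), (3581824601506593, -144), (3582863701524513, 48), (3582863446721313, 144), (3580736907313953, -108), (3581828869079073, -18), (3582863703552033, -2), (3582862916125473, 108), (3582863450907393, 18), (3582863703552528, 2)]

theorem col18 : MonoSum (Perm (Fin 13)) fun θ => ((648 : ℕ) : ℂ)⁻¹ * val θ H18 :=
  mono_col ram3 D18 648 H18 (by decide +kernel)

end Pool.Agent.H94.A5
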