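import Pool.Agent.H94.A5.Ram

/-!
# Monomial characters of `Perm (Fin 13)`, given by tables
-/

open Module Equiv Equiv.Perm
open Pool.Agent.H7.Artin Pool.Agent.H58.S2 Pool.Agent.H72.A5

namespace Pool.Agent.H94.A5

set_option maxRecDepth 1000000

/-- generators of a group of order 24: (2 4)(3 5) with exponent 1, (1 2 4)(3 6 5), (0 2)(1 4)(3 6)(5 7), (0 1)(2 4)(3 5)(6 7) -/
def D2 : List (ℕ × ℕ × ℕ) := [(8086463328703504, 8086463328703504, 2), (3582863684494368, 3582863654146368, 3), (3582863118262338, 3582863118262338, 2), (3582863449674753, 3582863449674753, 2)]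

def H2 : List (ℕ × ℤ) := [(3582863703548673, -6), (3582862916125473, -6), (3582863701524513, 8), (3582863450907393, 3), (3582863703552528, 1)]

theorem col2 : MonoSum (Perm (Fin 13)) fun θ => ((24 : ℕ) : ℂ)⁻¹ * val θ H2 :=
  mono_col ram2 D2 24 H2 (by decide +kernel)

/-- generators of a group of order 600: (0 5)(1 6)(2 7)(3 8)(4 9)(11 12) with exponent 1, (1 2 4 3)(6 8 9 7), (1 4)(2 3)(6 9)(7 8), (10 11 12), (0 1 2 3 4), (5 6 7 8 9) -/
def D9 : List (ℕ × ℕ × ℕ) := [(7822214037079909, 7822214037079909, 2), (3582730324612128, 3582786947662128, 2), (3582653568721728, 3582653568721728, 2), (3038605447803408, 3285995564053008, 3), (3582863703294753, 3582863703482628, 5), (3582593406874128, 3582790408090128, 5)]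

def H9 : List (ℕ × ℤ) := [(3565757135143713, -240), (3566306351981313, -60), (3580736907313953, 100), (3582862916125473, 50), (3581828869079073, 50), (3582863450907393, 25), (3038335150867233, 32), (3582863184249633, 16), (3582863703552033, 2), (3582593406616353, 16), (3582863703294753, 8), (3582863703552528, 1)]

theorem col9 : MonoSum (Perm (Fin 13)) fun θ => ((600 : ℕ) : ℂ)⁻¹ * val θ H9 :=
  mono_col ram2 D9 600 H9 (by decide +kernel)

end Pool.Agent.H94.A5
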