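import Pool.Agent.H94.A5.Ram

/-!
# Monomial characters of `Perm (Fin 13)`, given by tables
-/

open Module Equiv Equiv.Perm
open Pool.Agent.H7.Artin Pool.Agent.H58.S2 Pool.Agent.H72.A5

namespace Pool.Agent.H94.A5

set_option maxRecDepth 1000000

/-- generators of a group of order 576: (2 3)(4 5) with exponent 1, (10 11 12), (1 2 3)(4 6 5), (0 2)(1 3)(4 6)(5 7), (0 1)(2 3)(4 5)(6 7), (1 6)(3 4), (2 5)(3 4), (0 7)(1 6)(2 5)(3 4) -/
def D16 : List (ℕ × ℕ × ℕ) := [(8086463329936144, 8086463329936144, 2), (3038605447803408, 3285995564053008, 3), (3582863685849888, 3582863671107888, 3), (3582863135346738, 3582863135346738, 2), (3582863450907393, 3582863450907393, 2), (3582863619605088, 3582863619605088, 2), (3582863700346128, 3582863700346128, 2), (3582861737411943, 3582861737411943, 2)]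

def H16 : List (ℕ × ℤ) := [(3582863687761953, -12), (3581828869079073, 2), (3582859644568353, -48), (3580736907313953, -72), (3582863703548673, -6), (3582863450907393, 1), (3582863702557473, -24), (3582862916125473, -36), (3582855396802593, 64), (3581824601506593, 64), (3582863703552033, 2), (3582863701524513, 32), (3582863446721313, 32), (3582863703552528, 1)]

theorem col16 : MonoSum (Perm (Fin 13)) fun θ => ((576 : ℕ) : ℂ)⁻¹ * val θ H16 :=
  mono_col ram2 D16 576 H16 (by decide +kernel)

/-- generators of a group of order 144: (1 2)(3 6) with exponent 1, (8 9)(11 12) with exponent 1, (0 1 2)(3 4 6), (7 8 9)(10 11 12), (7 10)(9 12), (8 11)(9 12) -/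
def D19 : List (ℕ × ℕ × ℕ) := [(8086463280603424, 8086463280603424, 2), (7822516115747344, 7822516115747344, 2), (3582863653355553, 3582863669944578, 3), (3038472572252688, 3285923086479888, 3), (2735347202273808, 2735347202273808, 2), (2685881258619408, 2685881258619408, 2)]

def H19 : List (ℕ × ℤ) := [(3582863450907393, 9), (3582799026389793, 18), (3582799025356833, -30), (3582863703548673, -6), (3566238121132833, -12), (3582863702557473, -6), (3548839255818273, 16), (3582863701524513, 10), (3582863703552528, 1)]

theorem col19 : MonoSum (Perm (Fin 13)) fun θ => ((144 : ℕ) : ℂ)⁻¹ * val θ H19 :=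
  mono_col ram2 D19 144 H19 (by decide +kernel)

end Pool.Agent.H94.A5
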