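import Pool.Agent.H94.A5.Ram

/-!
# Monomial characters of `Perm (Fin 13)`, given by tables
-/

open Module Equiv Equiv.Perm
open Pool.Agent.H7.Artin Pool.Agent.H58.S2 Pool.Agent.H72.A5

namespace Pool.Agent.H94.A5

set_option maxRecDepth 1000000

/-- generators of a group of order 96: (0 1)(11 12), (3 4)(6 7) with exponent 1, (4 7)(11 12) with exponent 1, (2 3 4)(5 6 7), (2 5)(4 7), (3 6)(4 7) -/
def D17 : List (ℕ × ℕ × ℕ) := [(3318980912886273, 3318980912886273, 2), (8086463079203344, 8086463079203344, 2), (7822579735147024, 7822579735147024, 2), (3582863184380688, 3582863420367888, 3), (3582862895297808, 3582862895297808, 2), (3582862848123408, 3582862848123408, 2)]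

def H17 : List (ℕ × ℤ) := [(3582863702557473, 6), (3582863450907393, 7), (3582799026389793, -6), (3582863446721313, -16), (3582863703548673, -8), (3582799025356833, 8), (3582863701524513, 8), (3582863703552528, 1)]

theorem col17 : MonoSum (Perm (Fin 13)) fun θ => ((96 : ℕ) : ℂ)⁻¹ * val θ H17 :=
  mono_col ram2 D17 96 H17 (by decide +kernel)

/-- generators of a group of order 576: (2 4)(5 6) with exponent 1, (8 9)(11 12) with exponent 1, (1 2 4)(3 6 5), (7 8 9)(10 11 12), (0 5)(3 6), (0 3)(5 6), (7 10)(9 12), (8 11)(9 12) -/
def D25 : List (ℕ × ℕ × ℕ) := [(8086463315063824, 8086463315063824, 2), (7822516115747344, 7822516115747344, 2), (3582863684494368, 3582863654146368, 3), (3038472572252688, 3285923086479888, 3), (3582863647990293, 3582863647990293, 2), (3582863687811603, 3582863687811603, 2), (2735347202273808, 2735347202273808, 2), (2685881258619408, 2685881258619408, 2)]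

def H25 : List (ℕ × ℤ) := [(3582799026389793, 36), (3566305817199393, 36), (3582863450907393, 9), (3566238121132833, -96), (3582799025356833, -48), (3582863702557473, -12), (3582863703548673, -6), (3548839255818273, 64), (3582863701524513, 16), (3582863703552528, 1)]

theorem col25 : MonoSum (Perm (Fin 13)) fun θ => ((576 : ℕ) : ℂ)⁻¹ * val θ H25 :=
  mono_col ram2 D25 576 H25 (by decide +kernel)

end Pool.Agent.H94.A5
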