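import Pool.Agent.H94.A5.Ram

/-!
# Monomial characters of `Perm (Fin 13)`, given by tables
-/

open Module Equiv Equiv.Perm
open Pool.Agent.H7.Artin Pool.Agent.H58.S2 Pool.Agent.H72.A5

namespace Pool.Agent.H94.A5

set_option maxRecDepth 1000000

/-- generators of a group of order 80: (0 2 4 6 8)(1 3 5 7 9) with exponent 1, (0 1)(8 9), (2 3)(8 9), (4 5)(8 9), (6 7)(8 9) -/
def D4 : List (ℕ × ℕ × ℕ) := [(8085879788033074, 21597115611484312, 5), (3582799279043073, 3582799279043073, 2), (3582799279039248, 3582799279039248, 2), (3582799278060048, 3582799278060048, 2), (3582799027384848, 3582799027384848, 2)]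

def H4 : List (ℕ × ℤ) := [(3582593406616353, -64), (3582863450907393, 20), (3582863703548673, 40), (3582863703552528, 4)]

theorem col4 : MonoSum (Perm (Fin 13)) fun θ => ((80 : ℕ) : ℂ)⁻¹ * val θ H4 :=
  mono_col ram5 D4 80 H4 (by decide +kernel)

/-- generators of a group of order 162: (1 2)(4 5)(7 8)(11 12) with exponent 1, (0 1 2), (3 4 5), (6 7 8), (10 11 12) -/
def D10 : List (ℕ × ℕ × ℕ) := [(7822576512741664, 7822576512741664, 2), (3582863703552033, 3582863703552258, 3), (3582863701525008, 3582863702446608, 3), (3582855398830608, 3582859173704208, 3), (3038605447803408, 3285995564053008, 3)]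

def H10 : List (ℕ × ℤ) := [(3582863450907393, -81), (3548839255818273, 16), (3582855396802593, 32), (3582863701524513, 24), (3582863703552033, 8), (3582863703552528, 1)]

theorem col10 : MonoSum (Perm (Fin 13)) fun θ => ((162 : ℕ) : ℂ)⁻¹ * val θ H10 :=
  mono_col ram2 D10 162 H10 (by decide +kernel)

/-- generators of a group of order 432: (2 6)(9 12) with exponent 1, (8 9)(11 12) with exponent 1, (3 4 5), (1 2 6), (7 8 9)(10 11 12), (7 10)(9 12), (8 11)(9 12) -/
def D23 : List (ℕ × ℕ × ℕ) := [(7242244492113424, 7242244492113424, 2), (7822516115747344, 7822516115747344, 2), (3582863701525008, 3582863702446608, 3), (3582863619667488, 3582863636443488, 3), (3038472572252688, 3285923086479888, 3), (2735347202273808, 2735347202273808, 2), (2685881258619408, 2685881258619408, 2)]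

def H23 : List (ℕ × ℤ) := [(3581828869079073, 30), (3582859644568353, 12), (3582863450907393, 15), (3582863702557473, 12), (3581824601506593, -48), (3582863687761953, -30), (3582863446721313, -24), (3582863703548673, -12), (3582799025356833, -12), (3566238121132833, -24), (3548839255818273, 32), (3582863701524513, 12), (3582855396802593, 32), (3582863703552033, 4), (3582863703552528, 1)]

theorem col23 : MonoSum (Perm (Fin 13)) fun θ => ((432 : ℕ) : ℂ)⁻¹ * val θ H23 :=
  mono_col ram2 D23 432 H23 (by decide +kernel)

end Pool.Agent.H94.A5
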