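import Pool.Agent.H94.A5.Ram

/-!
# Monomial characters of `Perm (Fin 13)`, given by tables
-/

open Module Equiv Equiv.Perm
open Pool.Agent.H7.Artin Pool.Agent.H58.S2 Pool.Agent.H72.A5

namespace Pool.Agent.H94.A5

set_option maxRecDepth 1000000

/-- generators of a group of order 150: (0 5)(1 6)(2 7)(3 8)(4 9)(11 12), (5 6 7 8 9) with exponent 1, (10 11 12), (0 1 2 3 4)(5 9 8 7 6) -/
def D5 : List (ℕ × ℕ × ℕ) := [(3318614409709413, 3318614409709413, 2), (8086193034244624, 21597188917572112, 5), (3038605447803408, 3285995564053008, 3), (3582790407832353, 3582593406804228, 5)]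

def H5 : List (ℕ × ℤ) := [(3565757135143713, -60), (3566306351981313, 60), (3582863184249633, -16), (3038335150867233, 8), (3582863703294753, -8), (3582593406616353, 4), (3582863703552033, 8), (3582863703552528, 4)]

theorem col5 : MonoSum (Perm (Fin 13)) fun θ => ((150 : ℕ) : ℂ)⁻¹ * val θ H5 :=
  mono_col ram5 D5 150 H5 (by decide +kernel)

/-- generators of a group of order 288: (0 4)(1 5)(2 6)(3 7), (10 11 12) with exponent 2, (9 11)(10 12), (9 10)(11 12), (1 2 3)(4 5 6), (0 2)(1 3)(4 5)(6 7), (0 1)(2 3)(4 6)(5 7) -/
def D11 : List (ℕ × ℕ × ℕ) := [(3582862558262868, 3582862558262868, 2), (12045804702544400, 7789595191423504, 3), (2987065840251408, 2987065840251408, 2), (3317950120735248, 3317950120735248, 2), (3582863671104288, 3582863685853488, 3), (3582863450902578, 3582863450902578, 2), (3582863135351553, 3582863135351553, 2)]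

def H11 : List (ℕ × ℤ) := [(3581828869079073, -72), (3580736907313953, -48), (3566306351981313, 54), (3566305817199393, 36), (3582863450907393, 18), (3582862916125473, 12), (3582855396802593, -64), (3582863703552033, -8), (3582799025356833, 48), (3582863703548673, 6), (3582863701524513, 16), (3582863703552528, 2)]

theorem col11 : MonoSum (Perm (Fin 13)) fun θ => ((288 : ℕ) : ℂ)⁻¹ * val θ H11 :=
  mono_col ram3 D11 288 H11 (by decide +kernel)

/-- generators of a group of order 192: (3 4)(6 7) with exponent 1, (4 7)(10 12) with exponent 1, (9 10)(11 12) with exponent 1, (9 11)(10 12), (2 3 4)(5 6 7), (2 5)(4 7), (3 6)(4 7) -/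
def D21 : List (ℕ × ℕ × ℕ) := [(8086463079203344, 8086463079203344, 2), (7525711595647504, 7525711595647504, 2), (7821549748105744, 7821549748105744, 2), (2987065840251408, 2987065840251408, 2), (3582863184380688, 3582863420367888, 3), (3582862895297808, 3582862895297808, 2), (3582862848123408, 3582862848123408, 2)]

def H21 : List (ℕ × ℤ) := [(3582862916125473, -12), (3582799026389793, -4), (3582863702557473, 12), (3582863450907393, 13), (3582863703548673, -10), (3582662120129313, 16), (3582863446721313, -16), (3582799025356833, -8), (3582863701524513, 8), (3582863703552528, 1)]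

theorem col21 : MonoSum (Perm (Fin 13)) fun θ => ((192 : ℕ) : ℂ)⁻¹ * val θ H21 :=
  mono_col ram2 D21 192 H21 (by decide +kernel)

end Pool.Agent.H94.A5
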