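import Pool.Agent.H94.A5.Ram

/-!
# Monomial characters of `Perm (Fin 13)`, given by tables
-/

open Module Equiv Equiv.Perm
open Pool.Agent.H7.Artin Pool.Agent.H58.S2 Pool.Agent.H72.A5

namespace Pool.Agent.H94.A5

set_option maxRecDepth 1000000

/-- generators of a group of order 144: (1 2 3) with exponent 2, (5 6 7) with exponent 1, (0 2)(1 3), (0 1)(2 3), (4 6)(5 7), (4 5)(6 7) -/
def D6 : List (ℕ × ℕ × ℕ) := [(12590062958285600, 8086463330918704, 3), (8086462811877904, 12590062675178000, 3), (3582863703543858, 3582863703543858, 2), (3582863703548673, 3582863703548673, 2), (3582863135355408, 3582863135355408, 2), (3582863450911248, 3582863450911248, 2)]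

def H6 : List (ℕ × ℤ) := [(3582863701524513, 32), (3582863687761953, -48), (3582863703552033, -16), (3582863450907393, 18), (3582863703548673, 12), (3582863703552528, 2)]

theorem col6 : MonoSum (Perm (Fin 13)) fun θ => ((144 : ℕ) : ℂ)⁻¹ * val θ H6 :=
  mono_col ram3 D6 144 H6 (by decide +kernel)

/-- generators of a group of order 288: (0 4)(1 5)(2 6)(3 7), (10 11 12) with exponent 1, (1 2 3)(5 7 6), (0 2)(1 3), (0 1)(2 3), (4 6)(5 7), (4 5)(6 7) -/
def D15 : List (ℕ × ℕ × ℕ) := [(3582862558262868, 3582862558262868, 2), (7542205075173904, 12293194818794000, 3), (3582863420429088, 3582863184503088, 3), (3582863703543858, 3582863703543858, 2), (3582863703548673, 3582863703548673, 2), (3582863135355408, 3582863135355408, 2), (3582863450911248, 3582863450911248, 2)]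

def H15 : List (ℕ × ℤ) := [(3580736907313953, -72), (3581828869079073, -42), (3582862916125473, 72), (3582863450907393, 42), (3582855396802593, -64), (3582863687761953, -12), (3582863703552033, -2), (3582863701524513, 64), (3582863703548673, 12), (3582863703552528, 2)]

theorem col15 : MonoSum (Perm (Fin 13)) fun θ => ((288 : ℕ) : ℂ)⁻¹ * val θ H15 :=
  mono_col ram3 D15 288 H15 (by decide +kernel)

/-- generators of a group of order 192: (0 1)(2 4)(3 5)(6 7) with exponent 1, (2 3)(4 5) with exponent 1, (9 11)(10 12), (9 10)(11 12), (1 2 3)(4 5 7), (0 5)(1 2)(3 6)(4 7), (0 4)(1 3)(2 6)(5 7) -/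
def D22 : List (ℕ × ℕ × ℕ) := [(8086463077045249, 8086463077045249, 2), (8086463329936144, 8086463329936144, 2), (2987065840251408, 2987065840251408, 2), (3317950120735248, 3317950120735248, 2), (3582862900400928, 3582863165825328, 3), (3582862842880293, 3582862842880293, 2), (3582863101400628, 3582863101400628, 2)]

def H22 : List (ℕ × ℤ) := [(3566306347795233, 24), (3566306351981313, 3), (3582863446721313, 8), (3582863450907393, -17), (3566305817199393, -36), (3582862916125473, -12), (3582863703548673, -3), (3582799025356833, 24), (3582863701524513, 8), (3582863703552528, 1)]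

theorem col22 : MonoSum (Perm (Fin 13)) fun θ => ((192 : ℕ) : ℂ)⁻¹ * val θ H22 :=
  mono_col ram2 D22 192 H22 (by decide +kernel)

end Pool.Agent.H94.A5
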