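import Pool.Agent.H94.A5.Ram

/-!
# Monomial characters of `Perm (Fin 13)`, given by tables
-/

open Module Equiv Equiv.Perm
open Pool.Agent.H7.Artin Pool.Agent.H58.S2 Pool.Agent.H72.A5

namespace Pool.Agent.H94.A5

set_option maxRecDepth 1000000

/-- generators of a group of order 72: (2 4)(3 5) with exponent 3, (10 11 12) with exponent 2, (1 2 4)(3 6 5), (0 2)(1 4)(3 6)(5 7), (0 1)(2 4)(3 5)(6 7) -/
def D3 : List (ℕ × ℕ × ℕ) := [(17093662583444496, 17093662583444496, 2), (12045804702544400, 21300394073534992, 3), (3582863684494368, 3582863654146368, 3), (3582863118262338, 3582863118262338, 2), (3582863449674753, 3582863449674753, 2)]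

def H3 : List (ℕ × ℤ) := [(3582863687761953, 12), (3580736907313953, 12), (3582863703548673, -12), (3582862916125473, -12), (3582855396802593, -16), (3581828869079073, -6), (3582863703552033, -2), (3582863701524513, 16), (3582863450907393, 6), (3582863703552528, 2)]

theorem col3 : MonoSum (Perm (Fin 13)) fun θ => ((72 : ℕ) : ℂ)⁻¹ * val θ H3 :=
  mono_col ram6 D3 72 H3 (by decide +kernel)

/-- generators of a group of order 240: (10 11 12), (0 2 4 6 8)(1 3 5 7 9) with exponent 1, (0 1)(8 9), (2 3)(8 9), (4 5)(8 9), (6 7)(8 9) -/
def D8 : List (ℕ × ℕ × ℕ) := [(3038605447803408, 3285995564053008, 3), (8085879788033074, 21597115611484312, 5), (3582799279043073, 3582799279043073, 2), (3582799279039248, 3582799279039248, 2), (3582799278060048, 3582799278060048, 2), (3582799027384848, 3582799027384848, 2)]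

def H8 : List (ℕ × ℤ) := [(3038335150867233, -128), (3581828869079073, 40), (3582863687761953, 80), (3582863703552033, 8), (3582593406616353, -64), (3582863450907393, 20), (3582863703548673, 40), (3582863703552528, 4)]

theorem col8 : MonoSum (Perm (Fin 13)) fun θ => ((240 : ℕ) : ℂ)⁻¹ * val θ H8 :=
  mono_col ram5 D8 240 H8 (by decide +kernel)

/-- generators of a group of order 192: (1 4)(2 5)(3 6)(9 12) with exponent 1, (4 5)(9 12) with exponent 1, (8 9)(11 12) with exponent 1, (1 2)(4 5), (7 8 9)(10 11 12), (7 10)(9 12), (8 11)(9 12) -/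
def D13 : List (ℕ × ℕ × ℕ) := [(7242244505560384, 7242244505560384, 2), (7242244558238224, 7242244558238224, 2), (7822516115747344, 7822516115747344, 2), (3582863702569248, 3582863702569248, 2), (3038472572252688, 3285923086479888, 3), (2735347202273808, 2735347202273808, 2), (2685881258619408, 2685881258619408, 2)]

def H13 : List (ℕ × ℤ) := [(3582799026389793, 0), (3566305817199393, -12), (3566238121132833, 16), (3582863702557473, 8), (3566306351981313, 10), (3566306347795233, -16), (3582863450907393, 1), (3582863446721313, -16), (3582863703548673, -8), (3582799025356833, 8), (3582863701524513, 8), (3582863703552528, 1)]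

theorem col13 : MonoSum (Perm (Fin 13)) fun θ => ((192 : ℕ) : ℂ)⁻¹ * val θ H13 :=
  mono_col ram2 D13 192 H13 (by decide +kernel)

/-- generators of a group of order 162: (1 2)(4 5) with exponent 1, (6 7 8), (10 11 12), (0 1 2), (3 4 5) -/
def D14 : List (ℕ × ℕ × ℕ) := [(8086463329939744, 8086463329939744, 2), (3582855398830608, 3582859173704208, 3), (3038605447803408, 3285995564053008, 3), (3582863703552033, 3582863703552258, 3), (3582863701525008, 3582863702446608, 3)]

def H14 : List (ℕ × ℤ) := [(3582799025356833, -36), (3582863687761953, -36), (3582863703548673, -9), (3548839255818273, 16), (3582855396802593, 32), (3582863701524513, 24), (3582863703552033, 8), (3582863703552528, 1)]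

theorem col14 : MonoSum (Perm (Fin 13)) fun θ => ((162 : ℕ) : ℂ)⁻¹ * val θ H14 :=
  mono_col ram2 D14 162 H14 (by decide +kernel)

end Pool.Agent.H94.A5
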