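import Pool.Agent.H94.A5.Ram

/-!
# Monomial characters of `Perm (Fin 13)`, given by tables
-/

open Module Equiv Equiv.Perm
open Pool.Agent.H7.Artin Pool.Agent.H58.S2 Pool.Agent.H72.A5

namespace Pool.Agent.H94.A5

set_option maxRecDepth 1000000

/-- generators of a group of order 160: (8 9)(11 12) with exponent 5, (0 2 4 6 8)(1 3 5 7 9) with exponent 2, (0 1)(8 9), (2 3)(8 9), (4 5)(8 9), (6 7)(8 9) -/
def D1 : List (ℕ × ℕ × ℕ) := [(25836914625229328, 25836914625229328, 2), (12589479415403570, 39611514120966296, 5), (3582799279043073, 3582799279043073, 2), (3582799279039248, 3582799279039248, 2), (3582799278060048, 3582799278060048, 2), (3582799027384848, 3582799027384848, 2)]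

def H1 : List (ℕ × ℤ) := [(3565757135143713, 64), (3566306351981313, -4), (3582863450907393, -20), (3582863703548673, 20), (3582593406616353, -64), (3582863703552528, 4)]

theorem col1 : MonoSum (Perm (Fin 13)) fun θ => ((160 : ℕ) : ℂ)⁻¹ * val θ H1 :=
  mono_col ram10 D1 160 H1 (by decide +kernel)

/-- generators of a group of order 216: (1 4 2 8)(3 7 6 5), (1 3 2 6)(4 5 8 7), (10 11 12) with exponent 1, (1 2)(3 6)(4 8)(5 7), (0 3 6)(1 4 7)(2 5 8), (0 1 2)(3 4 5)(6 7 8) -/
def D7 : List (ℕ × ℕ × ℕ) := [(3582833351358528, 3582836877644928, 2), (3582858522601008, 3582851019117408, 2), (7542205075173904, 12293194818794000, 3), (3582845938852128, 3582845938852128, 2), (3582836225828163, 3582849959659638, 3), (3582855396802593, 3582859172598018, 3)]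

def H7 : List (ℕ × ℤ) := [(3580736907313953, -108), (3582862916125473, 108), (3581828869079073, -18), (3548839255818273, -16), (3582863703552033, -2), (3582863450907393, 18), (3582855396802593, 16), (3582863703552528, 2)]

theorem col7 : MonoSum (Perm (Fin 13)) fun θ => ((216 : ℕ) : ℂ)⁻¹ * val θ H7 :=
  mono_col ram3 D7 216 H7 (by decide +kernel)

/-- generators of a group of order 216: (2 3)(4 5)(6 7)(11 12) with exponent 1, (5 7)(11 12) with exponent 1, (4 6)(5 7), (10 11 12), (2 4 6), (3 5 7) -/
def D12 : List (ℕ × ℕ × ℕ) := [(7822580287611664, 7822580287611664, 2), (7822580005483024, 7822580005483024, 2), (3582863135355408, 3582863135355408, 2), (3038605447803408, 3285995564053008, 3), (3582863636575248, 3582863669868048, 3), (3582862631916048, 3582863164600848, 3)]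

def H12 : List (ℕ × ℤ) := [(3582859644568353, 36), (3582863702557473, 18), (3582863450907393, -18), (3582863446721313, -36), (3582863687761953, -18), (3582863703548673, -9), (3582855396802593, 8), (3582863701524513, 12), (3582863703552033, 6), (3582863703552528, 1)]

theorem col12 : MonoSum (Perm (Fin 13)) fun θ => ((216 : ℕ) : ℂ)⁻¹ * val θ H12 :=
  mono_col ram2 D12 216 H12 (by decide +kernel)

/-- generators of a group of order 96: (4 7)(5 6) with exponent 1, (2 4 7)(3 5 6), (0 5)(3 6), (0 3)(5 6), (1 4)(2 7), (1 2)(4 7) -/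
def D20 : List (ℕ × ℕ × ℕ) := [(8086462510084624, 8086462510084624, 2), (3582862312297488, 3582862879254288, 3), (3582863647990293, 3582863647990293, 2), (3582863687811603, 3582863687811603, 2), (3582862361179968, 3582862361179968, 2), (3582862898442528, 3582862898442528, 2)]

def H20 : List (ℕ × ℤ) := [(3582863703548673, -6), (3582863702557473, -24), (3582862916125473, -12), (3582863701524513, 32), (3582863450907393, 9), (3582863703552528, 1)]

theorem col20 : MonoSum (Perm (Fin 13)) fun θ => ((96 : ℕ) : ℂ)⁻¹ * val θ H20 :=
  mono_col ram2 D20 96 H20 (by decide +kernel)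

end Pool.Agent.H94.A5
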