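import Pool.Agent.H72.A5.Base

/-!
# Permutations of thirteen points as natural numbers

`pcode g` is the number whose digits in base 16 are `g 0, ..., g 12`.  `comp` is the composition of
codes.  `cls c` is the code of a conjugate of the permutation with code `c`.
-/

open Module Equiv Equiv.Perm
open Pool.Agent.H7.Artin Pool.Agent.H58.S2 Pool.Agent.H72.A5

namespace Pool.Agent.H94.A5

/-- digit -/
def dig (c i : ℕ) : ℕ := c / 16 ^ i % 16

def horner : List ℕ → ℕ
  | [] => 0
  | x :: l => x + 16 * horner l

def idx13 : List ℕ := [0, 1, 2, 3, 4, 5, 6, 7, 8, 9, 10, 11, 12]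

/-- composition of codes -/
def comp (a b : ℕ) : ℕ := horner (idx13.map fun i => dig a (dig b i))

def M13 : ℕ := 16 ^ 13

/-- code of the identity -/
def idc : ℕ := horner idx13

theorem dig_horner : ∀ (l : List ℕ), (∀ x ∈ l, x < 16) → ∀ i, dig (horner l) i = l.getD i 0 := by
  intro l
  induction l with
  | nil =>
    intro _ i
    simp [dig, horner]
  | cons x l ih =>
    intro h i
    have hx : x < 16 := h x List.mem_cons_self
    cases i with
    | zero =>
      simp only [dig, horner, pow_zero, Nat.div_one, List.getD_cons_zero]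
      omega
    | succ i =>
      rw [List.getD_cons_succ, ← ih (fun y hy => h y (List.mem_cons_of_mem _ hy)) i]
      simp only [dig, horner]
      rw [pow_succ', ← Nat.div_div_eq_div_mul]
      congr 2
      omega

theorem horner_lt : ∀ (l : List ℕ), (∀ x ∈ l, x < 16) → horner l < 16 ^ l.length := by
  intro l
  induction l with
  | nil =>
    intro _
    simp [horner]
  | cons x l ih =>
    intro h
    have hx : x < 16 := h x List.mem_cons_self
    have h1 := ih fun y hy => h y (List.mem_cons_of_mem _ hy)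
    rw [horner, List.length_cons, pow_succ]
    omega

theorem dig_lt (c i : ℕ) : dig c i < 16 := Nat.mod_lt _ (by norm_num)

theorem getD_idx13 (f : ℕ → ℕ) {i : ℕ} (hi : i < 13) : (idx13.map f).getD i 0 = f i := by
  unfold idx13
  interval_cases i <;> rfl

theorem mem_idx13 {i : ℕ} : i ∈ idx13 ↔ i < 13 := by
  unfold idx13
  constructor
  · intro h
    simp only [List.mem_cons, List.not_mem_nil, or_false] at h
    omega
  · intro h
    simp only [List.mem_cons, List.not_mem_nil, or_false]
    omega

/-- code of a function -/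
def fcode (f : ℕ → ℕ) : ℕ := horner (idx13.map f)

theorem dig_fcode {f : ℕ → ℕ} (hf : ∀ i < 13, f i < 16) {i : ℕ} (hi : i < 13) : dig (fcode f) i = f i := by
  unfold fcode
  rw [dig_horner, getD_idx13 f hi]
  intro x hx
  obtain ⟨j, hj, rfl⟩ := List.mem_map.1 hx
  exact hf j (mem_idx13.1 hj)

theorem fcode_lt {f : ℕ → ℕ} (hf : ∀ i < 13, f i < 16) : fcode f < M13 := by
  unfold fcode M13
  have h := horner_lt (idx13.map f) (by
    intro x hx
    obtain ⟨j, hj, rfl⟩ := List.mem_map.1 hx
    exact hf j (mem_idx13.1 hj))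
  rw [List.length_map] at h
  exact h

theorem fcode_congr {f f' : ℕ → ℕ} (h : ∀ i < 13, f i = f' i) : fcode f = fcode f' := by
  unfold fcode
  rw [List.map_congr_left fun i hi => h i (mem_idx13.1 hi)]

/-- the function of a permutation -/
def pf (g : Perm (Fin 13)) (i : ℕ) : ℕ := if h : i < 13 then (g ⟨i, h⟩).val else 0

theorem pf_val (g : Perm (Fin 13)) (i : Fin 13) : pf g i = (g i).val := by
  unfold pf
  rw [dif_pos i.2]

theorem pf_lt (g : Perm (Fin 13)) {i : ℕ} (hi : i < 13) : pf g i < 13 := by
  unfold pf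
  rw [dif_pos hi]
  exact (g _).2

/-- code of a permutation -/
def pcode (g : Perm (Fin 13)) : ℕ := fcode (pf g)

theorem dig_pcode (g : Perm (Fin 13)) (i : Fin 13) : dig (pcode g) i = (g i).val := by
  unfold pcode
  rw [dig_fcode (fun j hj => (pf_lt g hj).trans (by norm_num)) i.2, pf_val]

theorem pcode_lt (g : Perm (Fin 13)) : pcode g < M13 := fcode_lt fun j hj => (pf_lt g hj).trans (by norm_num)

theorem pcode_inj {g h : Perm (Fin 13)} (e : pcode g = pcode h) : g = h := by
  refine Equiv.ext fun i => Fin.ext ?_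
  rw [← dig_pcode, ← dig_pcode, e]

theorem comp_pcode (g h : Perm (Fin 13)) : comp (pcode g) (pcode h) = pcode (g * h) := by
  change fcode (fun i => dig (pcode g) (dig (pcode h) i)) = fcode (pf (g * h))
  refine fcode_congr fun i hi => ?_
  have h1 := dig_pcode h ⟨i, hi⟩
  simp only at h1
  rw [h1, dig_pcode g (h ⟨i, hi⟩)]
  exact (pf_val (g * h) ⟨i, hi⟩).symm

theorem pcode_one : pcode 1 = idc := by
  change fcode (pf 1) = horner idx13
  have h : idc = fcode id := by
    unfold idc fcode
    rw [List.map_id]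
  change _ = idc
  rw [h]
  refine fcode_congr fun i hi => ?_
  exact pf_val 1 ⟨i, hi⟩

/-- the code `c` and its inverse `d` -/
def isPerm (c d : ℕ) : Bool := comp c d == idc && comp d c == idc && fcode (dig c) == c && idx13.all fun i => dig c i < 13 && dig d i < 13

theorem dig_idc {i : ℕ} (hi : i < 13) : dig idc i = i := by
  have h : idc = fcode id := by
    unfold idc fcode
    rw [List.map_id]
  rw [h, dig_fcode (f := id) (fun j hj => lt_trans hj (by norm_num)) hi]
  rfl

theorem dig_comp (a b : ℕ) {i : ℕ} (hi : i < 13) : dig (comp a b) i = dig a (dig b i) :=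
  dig_fcode (f := fun i => dig a (dig b i)) (fun _ _ => dig_lt _ _) hi

theorem exists_perm {c d : ℕ} (h : isPerm c d = true) : ∃ g : Perm (Fin 13), pcode g = c := by
  unfold isPerm at h
  simp only [Bool.and_eq_true, beq_iff_eq, List.all_eq_true, decide_eq_true_eq] at h
  obtain ⟨⟨⟨h1, h2⟩, h3⟩, h4⟩ := h
  have hc : ∀ i : Fin 13, dig c i < 13 := fun i => (h4 i (mem_idx13.2 i.2)).1
  have hd : ∀ i : Fin 13, dig d i < 13 := fun i => (h4 i (mem_idx13.2 i.2)).2
  refine ⟨⟨fun i => ⟨dig c i, hc i⟩, fun i => ⟨dig d i, hd i⟩, fun i => Fin.ext ?_, fun i => Fin.ext ?_⟩, ?_⟩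
  · change dig d (dig c i) = i
    rw [← dig_comp d c i.2, h2, dig_idc i.2]
  · change dig c (dig d i) = i
    rw [← dig_comp c d i.2, h1, dig_idc i.2]
  · refine Eq.trans ?_ h3
    refine fcode_congr fun i hi => ?_
    exact pf_val _ ⟨i, hi⟩

/-! ## conjugates -/

/-- the cycle of `i` -/
def orb (c i : ℕ) : ℕ → ℕ → List ℕ
  | 0, _ => []
  | f + 1, x => bif x == i then [] else x :: orb c i f (dig c x)

def ins (x : ℕ × List ℕ) : List (ℕ × List ℕ) → List (ℕ × List ℕ)
  | [] => [x]
  | y :: l => bif y.1 < x.1 then x :: y :: l else y :: ins x l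

def cycs (c : ℕ) : List ℕ → List (ℕ × List ℕ)
  | [] => []
  | i :: l => let o := orb c i 12 (dig c i); bif o.all (fun j => i < j) then ins (o.length, i :: o) (cycs c l) else cycs c l

def word (c : ℕ) : List ℕ := (cycs c idx13).flatMap Prod.snd

def sumpos : List ℕ → ℕ → ℕ
  | [], _ => 0
  | x :: l, k => k * 16 ^ x + sumpos l (k + 1)

/-- the code of a conjugate -/
def cls (c : ℕ) : ℕ :=
  let w := word c
  let s := horner w
  let d := sumpos w 0
  bif isPerm s d && isPerm d s then comp (comp d c) s else c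

theorem cls_pcode (g : Perm (Fin 13)) : ∃ h : Perm (Fin 13), cls (pcode g) = pcode (h * g * h⁻¹) := by
  unfold cls
  simp only
  cases hb : isPerm (horner (word (pcode g))) (sumpos (word (pcode g)) 0) &&
      isPerm (sumpos (word (pcode g)) 0) (horner (word (pcode g)))
  · refine ⟨1, ?_⟩
    rw [cond_false, one_mul, inv_one, mul_one]
  · rw [cond_true]
    rw [Bool.and_eq_true] at hb
    obtain ⟨s, hs⟩ := exists_perm hb.1
    obtain ⟨d, hd⟩ := exists_perm hb.2
    have h1 : s * d = 1 := by
      apply pcode_inj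
      rw [← comp_pcode, hs, hd, pcode_one]
      have h2 := hb.1
      unfold isPerm at h2
      simp only [Bool.and_eq_true, beq_iff_eq] at h2
      exact h2.1.1.1
    refine ⟨d, ?_⟩
    rw [← hs, ← hd, comp_pcode, comp_pcode, ← eq_inv_of_mul_eq_one_left h1]

end Pool.Agent.H94.A5
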