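import Pool.Agent.H94.A5.Grp

/-!
# A monomial character as a table
-/

open Module Equiv Equiv.Perm
open Pool.Agent.H7.Artin Pool.Agent.H58.S2 Pool.Agent.H72.A5

namespace Pool.Agent.H94.A5

set_option linter.unusedSectionVars false

open Classical in
/-- the value of a function at the permutation with code `c` -/
noncomputable def tc (θ : Perm (Fin 13) → ℂ) (c : ℕ) : ℂ :=
  if h : ∃ g : Perm (Fin 13), pcode g = c then θ h.choose else 0

theorem tc_pcode (θ : Perm (Fin 13) → ℂ) (g : Perm (Fin 13)) : tc θ (pcode g) = θ g := by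
  unfold tc
  have h : ∃ g' : Perm (Fin 13), pcode g' = pcode g := ⟨g, rfl⟩
  rw [dif_pos h, pcode_inj h.choose_spec]

theorem tc_cls {θ : Perm (Fin 13) → ℂ} (hθ : IsClass θ) (g : Perm (Fin 13)) : tc θ (cls (pcode g)) = θ g := by
  obtain ⟨h, hh⟩ := cls_pcode g
  rw [hh, tc_pcode, hθ]

def bumpZ (k : ℕ) (v : ℤ) : List (ℕ × ℤ) → List (ℕ × ℤ)
  | [] => [(k, v)]
  | (k', n) :: l => bif Nat.beq k k' then (k', n + v) :: l else (k', n) :: bumpZ k v l

/-- the table: cycle types and sums of weights -/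
def hist (w : List ℤ) : List ℕ → List (ℕ × ℤ)
  | [] => []
  | x :: L => bumpZ (cls (x % M13)) (w.getD (x / M13) 0) (hist w L)

/-- the functional of a table -/
noncomputable def val (θ : Perm (Fin 13) → ℂ) : List (ℕ × ℤ) → ℂ
  | [] => 0
  | (k, n) :: H => (n : ℂ) * tc θ k + val θ H

theorem val_bumpZ (θ : Perm (Fin 13) → ℂ) (k : ℕ) (v : ℤ) : ∀ H, val θ (bumpZ k v H) = (v : ℂ) * tc θ k + val θ H := by
  intro H
  induction H with
  | nil => simp [bumpZ, val]
  | cons d H ih =>
    obtain ⟨k', n⟩ := d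
    unfold bumpZ
    cases hb : Nat.beq k k'
    · rw [cond_false]
      simp only [val]
      rw [ih]
      ring
    · rw [cond_true]
      have h1 : k = k' := Nat.eq_of_beq_eq_true hb
      simp only [val]
      rw [h1]
      push_cast
      ring

theorem val_hist (θ : Perm (Fin 13) → ℂ) (w : List ℤ) : ∀ L : List ℕ, val θ (hist w L) =
    (L.map fun x => ((w.getD (x / M13) 0 : ℤ) : ℂ) * tc θ (cls (x % M13))).sum := by
  intro L
  induction L with
  | nil => simp [hist, val]
  | cons x L ih =>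
    rw [List.map_cons, List.sum_cons, ← ih]
    exact val_bumpZ θ _ _ _

def eqH : List (ℕ × ℤ) → List (ℕ × ℤ) → Bool
  | [], [] => true
  | (a, x) :: l, (b, y) :: m => Nat.beq a b && decide (x = y) && eqH l m
  | _, _ => false

theorem eqH_eq : ∀ {l m : List (ℕ × ℤ)}, eqH l m = true → l = m := by
  intro l
  induction l with
  | nil =>
    intro m h
    cases m with
    | nil => rfl
    | cons d m => simp [eqH] at h
  | cons c l ih =>
    intro m h
    obtain ⟨a, x⟩ := c
    cases m with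
    | nil => simp [eqH] at h
    | cons d m =>
      obtain ⟨b, y⟩ := d
      simp only [eqH, Bool.and_eq_true, decide_eq_true_eq] at h
      rw [ih h.2, h.1.2, Nat.eq_of_beq_eq_true h.1.1]

def graph : List ℕ → Bool
  | [] => true
  | x :: L => (!(Nat.beq (x % M13) idc) || Nat.beq x idc) && graph L

theorem graph_spec : ∀ {L : List ℕ}, graph L = true → ∀ x ∈ L, x % M13 = idc → x = idc := by
  intro L
  induction L with
  | nil =>
    intro _ x hx
    exact absurd hx List.not_mem_nil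
  | cons y L ih =>
    intro h x hx hxi
    simp only [graph, Bool.and_eq_true, Bool.or_eq_true, Bool.not_eq_true'] at h
    rcases List.mem_cons.1 hx with rfl | hx
    · rcases h.1 with h1 | h1
      · exact absurd hxi (Nat.ne_of_beq_eq_false h1)
      · exact Nat.eq_of_beq_eq_true h1
    · exact ih h.2 x hx hxi

/-- all conditions -/
def colOk (E : ℕ) (w : List ℤ) (D : List (ℕ × ℕ × ℕ)) (len : ℕ) (H : List (ℕ × ℤ)) : Bool :=
  check E D && graph (enumc E D) && Nat.beq (enumc E D).length len && eqH (hist w (enumc E D)) H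

/-- `∑_{j ∈ J} ζ ^ (- j e)` is the integer `w e` -/
def Ram (E : ℕ) (w : List ℤ) : Prop :=
  ∃ (ζ : ℂˣ) (J : List ℕ), ζ ^ E = 1 ∧ ∀ e < E, (J.map fun j => (((ζ ^ (j * e))⁻¹ : ℂˣ) : ℂ)).sum = ((w.getD e 0 : ℤ) : ℂ)

section

variable {E : ℕ} [NeZero E]

/-- the linear character of `Multiplicative (ZMod E)` -/
def chi (ζ : ℂˣ) (hζ : ζ ^ E = 1) : Multiplicative (ZMod E) →* ℂˣ where
  toFun e := ζ ^ (Multiplicative.toAdd e).val
  map_one' := by rw [toAdd_one, ZMod.val_zero, pow_zero]
  map_mul' a b := by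
    rw [toAdd_mul, ZMod.val_add, ← pow_add]
    exact (pow_eq_pow_mod _ hζ).symm

theorem MonoSum.list {G : Type} [Group G] [Fintype G] {ι : Type} (T : ι → (G → ℂ) → ℂ) :
    ∀ l : List ι, (∀ i ∈ l, MonoSum G (T i)) → MonoSum G fun θ => (l.map fun i => T i θ).sum := by
  intro l
  induction l with
  | nil =>
    intro _
    exact MonoSum.zero.congr fun θ _ => by simp
  | cons i l ih =>
    intro h
    refine ((h i List.mem_cons_self).add (ih fun j hj => h j (List.mem_cons_of_mem _ hj))).congr fun θ _ => ?_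
    rw [List.map_cons, List.sum_cons]

theorem sum_grp {D : List (ℕ × ℕ × ℕ)} {L : List ℕ} (hn : L.Nodup) (hm : ∀ x, x ∈ L ↔ ∃ w ∈ grp E D, code w = x)
    [Fintype (grp E D)] (F : ℕ → ℂ) : ∑ b : grp E D, F (code (b : Ga E)) = (L.map F).sum := by
  classical
  rw [← List.sum_toFinset F hn]
  refine Finset.sum_bij (fun b _ => code (b : Ga E)) ?_ ?_ ?_ ?_
  · intro b _
    rw [List.mem_toFinset]
    exact (hm _).2 ⟨b, b.2, rfl⟩
  · intro b _ c _ h
    exact Subtype.ext (code_inj h)
  · intro x hx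
    rw [List.mem_toFinset] at hx
    obtain ⟨w, hw, rfl⟩ := (hm x).1 hx
    exact ⟨⟨w, hw⟩, Finset.mem_univ _, rfl⟩
  · intro b _
    rfl

theorem sum_list_comm {ι κ : Type} [Fintype κ] (f : κ → ι → ℂ) (J : List ι) :
    ∑ b : κ, (J.map fun j => f b j).sum = (J.map fun j => ∑ b : κ, f b j).sum := by
  induction J with
  | nil => simp
  | cons j J ih =>
    simp only [List.map_cons, List.sum_cons]
    rw [Finset.sum_add_distrib, ih]

/-- **A monomial character.** -/
theorem mono_col {w : List ℤ} (hr : Ram E w) (D : List (ℕ × ℕ × ℕ)) (len : ℕ) (H : List (ℕ × ℤ))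
    (h : colOk E w D len H = true) : MonoSum (Perm (Fin 13)) fun θ => (len : ℂ)⁻¹ * val θ H := by
  classical
  unfold colOk at h
  simp only [Bool.and_eq_true] at h
  obtain ⟨⟨⟨h1, h2⟩, h3⟩, h4⟩ := h
  obtain ⟨hn, hm⟩ := check_spec D h1
  obtain ⟨ζ, J, hζ, hJ⟩ := hr
  have hlen : (enumc E D).length = len := Nat.eq_of_beq_eq_true h3
  have hH := eqH_eq h4
  have : Fintype (grp E D) := Fintype.ofFinite _
  have hcard : (Nat.card (grp E D) : ℂ) = (len : ℂ) := by
    have h5 := sum_grp hn hm fun _ => (1 : ℂ)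
    rw [Finset.sum_const, Finset.card_univ, nsmul_eq_mul, mul_one, List.map_const', List.sum_replicate, nsmul_eq_mul, mul_one, hlen,
      ← Nat.card_eq_fintype_card] at h5
    exact h5
  let φ : grp E D →* Perm (Fin 13) := (MonoidHom.fst _ _).comp (grp E D).subtype
  have hφ : Function.Injective φ := by
    rw [injective_iff_map_eq_one]
    intro b hb
    have h6 : (b : Ga E).1 = 1 := hb
    have h7 := graph_spec h2 (code (b : Ga E)) ((hm _).2 ⟨b, b.2, rfl⟩) (by rw [code_mod, h6, pcode_one])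
    rw [← code_one (E := E)] at h7
    exact Subtype.ext (code_inj h7)
  let ψ : ℕ → (grp E D →* ℂˣ) := fun j => ((chi ζ hζ) ^ j).comp ((MonoidHom.snd _ _).comp (grp E D).subtype)
  refine (MonoSum.list (fun j θ => (Nat.card (grp E D) : ℂ)⁻¹ * ∑ b : grp E D, θ (φ b) * (((ψ j b)⁻¹ : ℂˣ) : ℂ)) J
    fun j _ => MonoSum.piece φ hφ (ψ j)).congr fun θ hθ => ?_
  rw [List.sum_map_mul_left, hcard]
  congr 1
  rw [← hH, val_hist, ← sum_grp hn hm fun x => ((w.getD (x / M13) 0 : ℤ) : ℂ) * tc θ (cls (x % M13))]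
  have h8 : ∀ b : grp E D, ((w.getD (code (b : Ga E) / M13) 0 : ℤ) : ℂ) * tc θ (cls (code (b : Ga E) % M13)) =
      (J.map fun j => θ (φ b) * (((ψ j b)⁻¹ : ℂˣ) : ℂ)).sum := by
    intro b
    rw [code_mod, tc_cls hθ, code_div, ← hJ _ (ZMod.val_lt _), List.sum_map_mul_left, mul_comm]
    change _ = θ (b : Ga E).1 * _
    congr 2
    refine List.map_congr_left fun j _ => ?_
    have h9 : ψ j b = ζ ^ (j * (Multiplicative.toAdd (b : Ga E).2).val) := by
      change (ζ ^ (Multiplicative.toAdd (b : Ga E).2).val) ^ j = _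
      rw [← pow_mul, mul_comm]
    rw [h9]
  rw [Finset.sum_congr rfl fun b _ => h8 b]
  exact sum_list_comm _ J

end

end Pool.Agent.H94.A5
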