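import Pool.Agent.H94.A5.C01
import Pool.Agent.H94.A5.C02
import Pool.Agent.H94.A5.C03
import Pool.Agent.H94.A5.C04
import Pool.Agent.H94.A5.C05
import Pool.Agent.H94.A5.C06
import Pool.Agent.H94.A5.C07
import Pool.Agent.H94.A5.C08
import Pool.Agent.H94.A5.C09
import Pool.Agent.H94.A5.C10

/-!
# The alternating group of degree five in the symmetric group of degree thirteen
-/

open Module Equiv Equiv.Perm
open Pool.Agent.H7.Artin Pool.Agent.H58.S2 Pool.Agent.H72.A5

namespace Pool.Agent.H94.A5

theorem combination : MonoSum (Perm (Fin 13)) fun θ => ((378392 : ℕ) : ℂ) * ((60 : ℂ)⁻¹ * (4 * tc θ 3582863703552528 + 20 * tc θ 3582863701524513 - 24 * tc θ 3582593406616353)) := by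
  refine (((((((((((((((((((((((((col1.nsmul 303270).add (col2.nsmul 167680)).add (col3.nsmul 110376)).add (col4.nsmul 37561)).add (col5.nsmul 60654)).add (col6.nsmul 53128)).add (col7.nsmul 70288)).add (col8.nsmul 30327)).add (col9.nsmul 242616)).add (col10.nsmul 64637)).add (col11.nsmul 28888)).add (col12.nsmul 33840)).add (col13.nsmul 28956)).add (col14.nsmul 23526)).add (col15.nsmul 19476)).add (col16.nsmul 69976)).add (col17.nsmul 9484)).add (col18.nsmul 31544)).add (col19.nsmul 11684)).add (col20.nsmul 7632)).add (col21.nsmul 10112)).add (col22.nsmul 9192)).add (col23.nsmul 6888)).add (col24.nsmul 10112)).add (col25.nsmul 1284)).congr fun θ _ => ?_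
  simp only [val, H1, H2, H3, H4, H5, H6, H7, H8, H9, H10, H11, H12, H13, H14, H15, H16, H17, H18, H19, H20, H21, H22, H23, H24, H25]
  push_cast
  ring

end Pool.Agent.H94.A5
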