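import Pool.Agent.H94.A5.Main
import Pool.Agent.H72.E17.QMain

/-!
# Fields with group `A_5` over which a polynomial of degree `n ≥ 13` has two irreducible factors of degree five
-/

open NumberField Module Equiv MulAction Polynomial Equiv.Perm UniqueFactorizationMonoid
open Pool.Agent.H7.Artin Pool.Agent.H58.S2 Pool.Agent.H72.PM Pool.Agent.H72.E17
  Pool.Agent.H72.EG Pool.Agent.H72.A5 Pool.Agent.H72.SR
open scoped Nat

namespace Pool.Agent.H94.A5

set_option linter.unusedSectionVars false

/-- Splitting fields `L` of polynomials `f` of degree `n` with symmetric (`n ≥ 13`) or alternating (`n ≥ 15`) Galois group over a number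
field `F`: for every field `K` between `F` and `L` such that `Gal(L/K)` is isomorphic to `A_5` and over which `f` has two irreducible factors of
degree five, all others being linear, Artin's conjecture holds for `L / K`, and the power with exponent 378392 of each Artin L-function
of `L / K` is a product of L-functions of one-dimensional characters.  Such `K` exist. -/
def QuinticAltPart : Prop :=
  ∀ (F L : Type) [Field F] [NumberField F] [Field L] [NumberField L] [Algebra F L]
    [IsGalois F L] (f : F[X]) [f.IsSplittingField F L],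
    (13 ≤ f.natDegree ∧ (f.natDegree)! ≤ Nat.card Gal(L/F)) ∨
      (15 ≤ f.natDegree ∧ (f.natDegree)! ≤ 2 * Nat.card Gal(L/F)) →
    (∀ K : IntermediateField F L, Nonempty (Gal(L/K) ≃* alternatingGroup (Fin 5)) → Splits55 f K →
      ArtinHolds K L ∧ ∀ (V : Type) [AddCommGroup V] [Module ℂ V] [FiniteDimensional ℂ V] (ρ : Representation ℂ Gal(L/K) V),
        HeckeNth 378392 K ρ) ∧
    ∃ K : IntermediateField F L, Nonempty (Gal(L/K) ≃* alternatingGroup (Fin 5)) ∧ Splits55 f K

theorem sum_factors {K : Type} [Field K] [DecidableEq K] (m : ℕ) (p q : K[X]) (hp : p ≠ 0) (hq : q ≠ 0) :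
    ((normalizedFactors (p * q)).map fun g => g.natDegree / m).sum =
      ((normalizedFactors p).map fun g => g.natDegree / m).sum + ((normalizedFactors q).map fun g => g.natDegree / m).sum := by
  rw [normalizedFactors_mul hp hq, Multiset.map_add, Multiset.sum_add]

theorem sum_factors_irr {K : Type} [Field K] [DecidableEq K] (m : ℕ) (p : K[X]) (hp : Irreducible p) :
    ((normalizedFactors p).map fun g => g.natDegree / m).sum = p.natDegree / m := by
  rw [normalizedFactors_irreducible hp, Multiset.map_singleton, Multiset.sum_singleton]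
  congr 1
  exact natDegree_eq_of_degree_eq (degree_normalize)

open Classical in
theorem cyc_splits55 {F L : Type} [Field F] [Field L] [Algebra F L] (f : F[X]) (hf : f ≠ 0)
    (K : IntermediateField F L) (h : Splits55 f K) {m : ℕ} (h2 : 2 ≤ m) : cyc f K m = 5 / m + 5 / m := by
  obtain ⟨g, h, s, hg, hg5, hh, hh5, hfac⟩ := h
  have hfK : f.map (algebraMap F K) ≠ 0 :=
    (Polynomial.map_ne_zero_iff (algebraMap F K).injective).2 hf
  have hs : (s.map fun a => X - C a).prod ≠ 0 := by
    intro h0
    rw [h0, mul_zero] at hfac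
    exact hfK hfac
  have key : ∀ s : Multiset K, ((normalizedFactors (s.map fun a => X - C a).prod).map fun g => g.natDegree / m).sum = 0 := by
    intro s
    induction s using Multiset.induction_on with
    | empty =>
      rw [Multiset.map_zero, Multiset.prod_zero, normalizedFactors_one]
      simp
    | cons a s ih =>
      have h3 : (s.map fun a => X - C a).prod ≠ 0 := by
        apply Multiset.prod_ne_zero
        intro h4
        obtain ⟨b, -, hb⟩ := Multiset.mem_map.1 h4
        exact X_sub_C_ne_zero b hb
      rw [Multiset.map_cons, Multiset.prod_cons, sum_factors m _ _ (X_sub_C_ne_zero a) h3, ih, add_zero,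
        sum_factors_irr m _ (irreducible_X_sub_C a), natDegree_X_sub_C]
      exact Nat.div_eq_of_lt (by omega)
  unfold cyc
  rw [hfac, sum_factors m _ _ (mul_ne_zero hg.ne_zero hh.ne_zero) hs, sum_factors m _ _ hg.ne_zero hh.ne_zero, key,
    sum_factors_irr m g hg, sum_factors_irr m h hh, hg5, hh5, add_zero]

theorem trans_alt : ∀ i j : Fin 5, ∃ s : Alt5, (s : Perm (Fin 5)) i = j := by
  decide +kernel

section

variable {G X : Type} [Group G] [Fintype G] [Fintype X] [DecidableEq X]

/-- existence of the alternating group of degree five with two orbits of size five -/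
theorem exists_55alt (τ : G →* Perm X) (hτ : Function.Injective τ)
    (halt : alternatingGroup X ≤ τ.range) (hX : 10 ≤ Fintype.card X) :
    ∃ u : Alt5 →* G, Function.Injective u ∧ Orb55 (τ.comp u) := by
  obtain ⟨v, hv, a, b, ha, hb, hba, hfix⟩ := exists_55 τ hτ halt hX
  let u : Alt5 →* G := v.comp (alternatingGroup (Fin 5)).subtype
  have key : ∀ x : X, Nat.card (Orb (τ.comp v) x) = 5 → Orb (τ.comp u) x = Orb (τ.comp v) x := by
    intro x hx
    obtain ⟨c, hc⟩ := match_orbit (MulEquiv.refl _) (τ.comp v) x hx
    refine Set.Subset.antisymm ?_ ?_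
    · rintro y ⟨s, rfl⟩
      exact ⟨s, rfl⟩
    · intro y hy
      obtain ⟨s, hs⟩ := trans_alt (c.symm ⟨x, self_mem_Orb _ x⟩) (c.symm ⟨y, hy⟩)
      refine ⟨s, ?_⟩
      have h1 := hc (s : Perm (Fin 5)) (c.symm ⟨x, self_mem_Orb _ x⟩)
      rw [hs, c.apply_symm_apply, c.apply_symm_apply] at h1
      exact h1.symm
  refine ⟨u, hv.comp Subtype.val_injective, a, b, by rw [key a ha, ha], by rw [key b hb, hb], by rwa [key a ha], fun x hxa hxb s => ?_⟩
  rw [key a ha] at hxa
  rw [key b hb] at hxb
  exact hfix x hxa hxb s

end

theorem quinticAlt : QuinticAltPart := by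
  intro F L _ _ _ _ _ _ f _ h0
  classical
  have hn : 13 ≤ f.natDegree := by
    rcases h0 with h | h
    · exact h.1
    · exact le_trans (by norm_num) h.1
  have hcard : (f.natDegree)! ≤ 2 * Nat.card Gal(L/F) := by
    rcases h0 with h | h
    · have h1 := h.2
      omega
    · exact h.2
  have hf : f ≠ 0 := by
    rintro rfl
    rw [natDegree_zero] at hn
    omega
  have hroots := card_rootSet_eq2 (L := L) f (by omega) hcard
  have hinj := toPerm_injective (L := L) f
  have halt := alternating_le_range (L := L) f (by omega) hcard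
  constructor
  · rintro K ⟨e⟩ hK
    have c3 := cyc_splits55 f hf K hK (m := 3) (by norm_num)
    have c4 := cyc_splits55 f hf K hK (m := 4) (by norm_num)
    have c5 := cyc_splits55 f hf K hK (m := 5) (by norm_num)
    refine ⟨fun V _ _ _ ρ => (thirteen f h0 K e c3 c4 c5 ρ).1, fun V _ _ _ ρ => (thirteen f h0 K e c3 c4 c5 ρ).2⟩
  · obtain ⟨u, hu, horb⟩ := exists_55alt (MulAction.toPermHom Gal(L/F) (f.rootSet L)) hinj halt
      (by rw [hroots]; omega)
    obtain ⟨K, ⟨e'⟩, hr⟩ := exists_field u hu
    refine ⟨K, ⟨e'⟩, splits55_of_orb f hf hroots K ?_⟩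
    refine Orb55_of_range ?_ horb
    unfold rootHom
    rw [MonoidHom.range_comp, MonoidHom.range_comp, hr]

end Pool.Agent.H94.A5
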