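import Pool.Agent.H94.A5.Code

/-!
# Lists of codes of the elements of subgroups

Elements of `Perm (Fin 13) × ZMod E` are coded as `pcode g + 16 ^ 13 * e`.  `enumc E D` lists the
codes of the elements of the subgroup generated by the elements in the list `D`.
-/

open Module Equiv Equiv.Perm
open Pool.Agent.H7.Artin Pool.Agent.H58.S2 Pool.Agent.H72.A5

namespace Pool.Agent.H94.A5

set_option linter.unusedSectionVars false

/-- permutations with an exponent -/
abbrev Ga (E : ℕ) := Perm (Fin 13) × Multiplicative (ZMod E)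

/-- product of codes -/
def mulc (E x y : ℕ) : ℕ := comp (x % M13) (y % M13) + M13 * ((x / M13 + y / M13) % E)

def cos (E a : ℕ) : ℕ → List ℕ → List ℕ
  | 0, _ => []
  | p + 1, L => L ++ cos E a p (L.map (mulc E a))

/-- the list of the codes of the elements -/
def enumc (E : ℕ) : List (ℕ × ℕ × ℕ) → List ℕ
  | [] => [idc]
  | (a, _, p) :: D => cos E a p (enumc E D)

def memb (x : ℕ) : List ℕ → Bool
  | [] => false
  | y :: l => bif Nat.beq x y then true else memb x l

def powc (E a : ℕ) : ℕ → ℕ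
  | 0 => idc
  | n + 1 => mulc E a (powc E a n)

def noPow (E a : ℕ) (L : List ℕ) : ℕ → Bool
  | 0 => true
  | n + 1 => (Nat.beq n 0 || !memb (powc E a n) L) && noPow E a L n

def isCode (E x d : ℕ) : Bool := isPerm (x % M13) (d % M13) && Nat.ble (x / M13 + 1) E

def stepOk (E : ℕ) (gens L : List ℕ) (a ai p : ℕ) : Bool :=
  isCode E a ai && isCode E ai a && Nat.beq (mulc E a ai) idc && Nat.ble 1 p &&
    gens.all (fun g => memb (mulc E (mulc E a g) ai) L) && memb (powc E a p) L && noPow E a L p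

def check (E : ℕ) : List (ℕ × ℕ × ℕ) → Bool
  | [] => true
  | (a, ai, p) :: D => check E D && stepOk E (D.map Prod.fst) (enumc E D) a ai p

section

variable {E : ℕ} [NeZero E]

def code (w : Ga E) : ℕ := pcode w.1 + M13 * (Multiplicative.toAdd w.2).val

theorem M13_pos : 0 < M13 := by
  unfold M13
  positivity

theorem code_mod (w : Ga E) : code w % M13 = pcode w.1 := by
  unfold code
  rw [Nat.add_mul_mod_self_left, Nat.mod_eq_of_lt (pcode_lt _)]

theorem code_div (w : Ga E) : code w / M13 = (Multiplicative.toAdd w.2).val := by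
  unfold code
  rw [Nat.add_mul_div_left _ _ M13_pos, Nat.div_eq_of_lt (pcode_lt _), zero_add]

theorem mulc_code (v w : Ga E) : mulc E (code v) (code w) = code (v * w) := by
  unfold mulc
  rw [code_mod, code_mod, code_div, code_div, comp_pcode]
  unfold code
  rw [Prod.fst_mul, Prod.snd_mul, toAdd_mul, ZMod.val_add]

theorem code_inj {v w : Ga E} (h : code v = code w) : v = w := by
  refine Prod.ext (pcode_inj ?_) ?_
  · rw [← code_mod, ← code_mod, h]
  · apply Multiplicative.toAdd.injective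
    apply ZMod.val_injective
    rw [← code_div, ← code_div, h]

theorem code_one : code (1 : Ga E) = idc := by
  unfold code
  rw [Prod.fst_one, Prod.snd_one, toAdd_one, ZMod.val_zero, mul_zero, add_zero, pcode_one]

theorem exists_code {x d : ℕ} (h : isCode E x d = true) : ∃ w : Ga E, code w = x := by
  unfold isCode at h
  rw [Bool.and_eq_true] at h
  obtain ⟨g, hg⟩ := exists_perm h.1
  have h2 : x / M13 < E := Nat.le_of_ble_eq_true h.2
  refine ⟨(g, Multiplicative.ofAdd ((x / M13 : ℕ) : ZMod E)), ?_⟩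
  unfold code
  simp only [toAdd_ofAdd]
  rw [hg, ZMod.val_natCast, Nat.mod_eq_of_lt h2, Nat.mod_add_div]

theorem powc_code (w : Ga E) (n : ℕ) : powc E (code w) n = code (w ^ n) := by
  induction n with
  | zero => rw [pow_zero, code_one]; rfl
  | succ n ih =>
    rw [pow_succ', ← mulc_code, ← ih]
    rfl

theorem memb_iff {x : ℕ} : ∀ {l : List ℕ}, memb x l = true ↔ x ∈ l := by
  intro l
  induction l with
  | nil => simp [memb]
  | cons y l ih =>
    unfold memb
    cases hb : Nat.beq x y
    · rw [cond_false, ih, List.mem_cons]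
      have h1 : x ≠ y := Nat.ne_of_beq_eq_false hb
      constructor
      · exact fun h => Or.inr h
      · exact fun h => h.resolve_left h1
    · rw [cond_true]
      have h1 : x = y := Nat.eq_of_beq_eq_true hb
      simp [h1]

theorem noPow_iff {a : ℕ} {L : List ℕ} : ∀ {n : ℕ}, noPow E a L n = true → ∀ i, 0 < i → i < n → powc E a i ∉ L := by
  intro n
  induction n with
  | zero => intro _ i _ h; omega
  | succ n ih =>
    intro h i hi hn
    unfold noPow at h
    simp only [Bool.and_eq_true, Bool.or_eq_true, Bool.not_eq_true'] at h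
    rcases Nat.lt_succ_iff_lt_or_eq.1 hn with h1 | rfl
    · exact ih h.2 i hi h1
    · intro hm
      rcases h.1 with h2 | h2
      · have h3 := Nat.eq_of_beq_eq_true h2
        omega
      · rw [memb_iff.2 hm] at h2
        exact absurd h2 (by simp)

theorem mem_map_mulc {L : List ℕ} {S : Set (Ga E)} (hL : ∀ x, x ∈ L ↔ ∃ w ∈ S, code w = x) (g : Ga E) (x : ℕ) :
    x ∈ L.map (mulc E (code g)) ↔ ∃ w ∈ (fun w => g * w) '' S, code w = x := by
  rw [List.mem_map]
  constructor
  · rintro ⟨y, hy, rfl⟩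
    obtain ⟨w, hw, rfl⟩ := (hL y).1 hy
    exact ⟨g * w, ⟨w, hw, rfl⟩, (mulc_code g w).symm⟩
  · rintro ⟨w, ⟨v, hv, rfl⟩, rfl⟩
    exact ⟨code v, (hL _).2 ⟨v, hv, rfl⟩, mulc_code g v⟩

theorem mem_cos (g : Ga E) : ∀ (p : ℕ) {L : List ℕ} {S : Set (Ga E)}, (∀ x, x ∈ L ↔ ∃ w ∈ S, code w = x) →
    ∀ x, x ∈ cos E (code g) p L ↔ ∃ i < p, ∃ w ∈ S, code (g ^ i * w) = x := by
  intro p
  induction p with
  | zero =>
    intro L S _ x
    simp [cos]
  | succ p ih =>
    intro L S hL x
    unfold cos
    rw [List.mem_append, ih (mem_map_mulc hL g), hL]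
    constructor
    · rintro (⟨w, hw, rfl⟩ | ⟨i, hi, w, ⟨v, hv, rfl⟩, rfl⟩)
      · exact ⟨0, by omega, w, hw, by rw [pow_zero, one_mul]⟩
      · exact ⟨i + 1, by omega, v, hv, by rw [pow_succ, mul_assoc]⟩
    · rintro ⟨i, hi, w, hw, rfl⟩
      cases i with
      | zero => exact Or.inl ⟨w, hw, by rw [pow_zero, one_mul]⟩
      | succ i => exact Or.inr ⟨i, by omega, g * w, ⟨w, hw, rfl⟩, by rw [pow_succ, mul_assoc]⟩

theorem nodup_cos (g : Ga E) : ∀ (p : ℕ) {L : List ℕ} {S : Set (Ga E)}, (∀ x, x ∈ L ↔ ∃ w ∈ S, code w = x) →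
    L.Nodup → (∀ i, 0 < i → i < p → ∀ w ∈ S, g ^ i * w ∉ S) → (cos E (code g) p L).Nodup := by
  intro p
  induction p with
  | zero =>
    intro L S _ _ _
    exact List.nodup_nil
  | succ p ih =>
    intro L S hL hn hS
    unfold cos
    rw [List.nodup_append]
    refine ⟨hn, ?_, ?_⟩
    · refine ih (mem_map_mulc hL g) ?_ ?_
      · refine hn.map_on ?_
        intro x hx y hy hxy
        obtain ⟨v, hv, rfl⟩ := (hL x).1 hx
        obtain ⟨w, hw, rfl⟩ := (hL y).1 hy
        rw [mulc_code, mulc_code] at hxy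
        rw [mul_left_cancel (code_inj hxy)]
      · rintro i hi0 hip w ⟨v, hv, rfl⟩ ⟨u, hu, he⟩
        refine hS i hi0 (by omega) v hv ?_
        have h1 : g * u = g * (g ^ i * v) := by
          simp only at he
          rw [he, ← mul_assoc, ← mul_assoc, ← pow_succ, ← pow_succ']
        rw [← mul_left_cancel h1]
        exact hu
    · intro x hx y hy hxy
      subst hxy
      obtain ⟨w, hw, rfl⟩ := (hL x).1 hx
      obtain ⟨i, hi, u, ⟨v, hv, rfl⟩, he⟩ := (mem_cos g p (mem_map_mulc hL g) _).1 hy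
      refine hS (i + 1) (by omega) (by omega) v hv ?_
      have h1 := code_inj he
      simp only at h1
      rw [pow_succ, mul_assoc, h1]
      exact hw

/-- the subgroup generated by the elements of the list -/
def grp (E : ℕ) [NeZero E] (D : List (ℕ × ℕ × ℕ)) : Subgroup (Ga E) :=
  Subgroup.closure {g | code g ∈ D.map Prod.fst}

theorem conj_mem (D : List (ℕ × ℕ × ℕ)) {L : List ℕ} (hL : ∀ x, x ∈ L ↔ ∃ w ∈ grp E D, code w = x) (g : Ga E)
    (h : ∀ c ∈ D.map Prod.fst, mulc E (mulc E (code g) c) (code g⁻¹) ∈ L) : g ∈ Subgroup.normalizer (grp E D : Set (Ga E)) := by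
  have h1 : ∀ n ∈ grp E D, g * n * g⁻¹ ∈ grp E D := by
    intro n hn
    have h2 : grp E D ≤ (grp E D).comap (MulAut.conj g).toMonoidHom := by
      conv_lhs => unfold grp
      rw [Subgroup.closure_le]
      intro x hx
      have h3 := h (code x) hx
      rw [mulc_code, mulc_code] at h3
      obtain ⟨w, hw, he⟩ := (hL _).1 h3
      rw [code_inj he] at hw
      exact hw
    exact h2 hn
  have : Finite (grp E D : Set (Ga E)) := Subtype.finite
  exact Subgroup.mem_normalizer_fintype (S := (grp E D : Set (Ga E))) h1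

theorem grp_cons (g : Ga E) (ai p : ℕ) (D : List (ℕ × ℕ × ℕ)) : grp E ((code g, ai, p) :: D) = Subgroup.zpowers g ⊔ grp E D := by
  unfold grp
  rw [Subgroup.zpowers_eq_closure, ← Subgroup.closure_union]
  congr 1
  ext x
  rw [List.map_cons]
  simp only [Set.mem_ofPred_eq, List.mem_cons, Set.mem_union, Set.mem_singleton_iff]
  constructor
  · rintro (h | h)
    · exact Or.inl (code_inj h)
    · exact Or.inr h
  · rintro (h | h)
    · exact Or.inl (by rw [h])
    · exact Or.inr h

theorem check_spec : ∀ (D : List (ℕ × ℕ × ℕ)), check E D = true →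
    (enumc E D).Nodup ∧ ∀ x, x ∈ enumc E D ↔ ∃ w ∈ grp E D, code w = x := by
  intro D
  induction D with
  | nil =>
    intro _
    refine ⟨List.nodup_singleton _, fun x => ?_⟩
    have h1 : grp E [] = ⊥ := by
      unfold grp
      simp
    rw [h1]
    simp only [enumc, List.mem_singleton, Subgroup.mem_bot, exists_eq_left]
    rw [code_one]
    exact eq_comm
  | cons d D ih =>
    obtain ⟨a, ai, p⟩ := d
    intro h
    unfold check at h
    rw [Bool.and_eq_true] at h
    obtain ⟨hn, hm⟩ := ih h.1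
    have h2 := h.2
    unfold stepOk at h2
    simp only [Bool.and_eq_true, List.all_eq_true] at h2
    obtain ⟨⟨⟨⟨⟨⟨h3, h4⟩, h5⟩, h6⟩, h7⟩, h8⟩, h9⟩ := h2
    obtain ⟨g, rfl⟩ := exists_code h3
    obtain ⟨g', hg'⟩ := exists_code (E := E) h4
    subst hg'
    have h5' := Nat.eq_of_beq_eq_true h5
    rw [mulc_code, ← code_one (E := E)] at h5'
    have h10 : g' = g⁻¹ := eq_inv_of_mul_eq_one_right (code_inj h5')
    subst h10
    have hp : 1 ≤ p := Nat.le_of_ble_eq_true h6
    have hN : g ∈ Subgroup.normalizer (grp E D : Set (Ga E)) := conj_mem D hm g fun c hc => memb_iff.1 (h7 c hc)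
    have h8' := memb_iff.1 h8
    rw [powc_code] at h8'
    have hgp : g ^ p ∈ grp E D := by
      obtain ⟨w, hw, he⟩ := (hm _).1 h8'
      rw [← code_inj he]
      exact hw
    have h9' := noPow_iff h9
    have hS : ∀ i, 0 < i → i < p → ∀ w ∈ (grp E D : Set (Ga E)), g ^ i * w ∉ (grp E D : Set (Ga E)) := by
      intro i hi hip w hw hgw
      refine h9' i hi hip ?_
      rw [powc_code, hm]
      refine ⟨g ^ i, ?_, rfl⟩
      have h11 := (grp E D).mul_mem hgw ((grp E D).inv_mem hw)
      rwa [mul_inv_cancel_right] at h11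
    refine ⟨nodup_cos g p (S := (grp E D : Set (Ga E))) hm hn hS, fun x => ?_⟩
    change x ∈ cos E (code g) p (enumc E D) ↔ _
    rw [mem_cos g p (S := (grp E D : Set (Ga E))) hm, grp_cons]
    have h12 : Subgroup.zpowers g ≤ Subgroup.normalizer (grp E D : Set (Ga E)) := Subgroup.zpowers_le.2 hN
    have h13 := Subgroup.coe_mul_of_left_le_normalizer_right (Subgroup.zpowers g) (grp E D) h12
    constructor
    · rintro ⟨i, -, w, hw, rfl⟩
      refine ⟨g ^ i * w, ?_, rfl⟩
      exact Subgroup.mul_mem_sup (Subgroup.npow_mem_zpowers g i) hw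
    · rintro ⟨y, hy, rfl⟩
      have h14 : y ∈ ((Subgroup.zpowers g ⊔ grp E D : Subgroup (Ga E)) : Set (Ga E)) := hy
      rw [h13] at h14
      obtain ⟨z, ⟨m, rfl⟩, w, hw, rfl⟩ := Set.mem_mul.1 h14
      refine ⟨(m % (p : ℤ)).toNat, ?_, (g ^ p) ^ (m / (p : ℤ)) * w, ?_, ?_⟩
      · have h15 : m % (p : ℤ) < p := Int.emod_lt_of_pos m (by omega)
        omega
      · exact (grp E D).mul_mem ((grp E D).zpow_mem hgp _) hw
      · have h16 : 0 ≤ m % (p : ℤ) := Int.emod_nonneg m (by omega)
        have h17 : g ^ (m % (p : ℤ)).toNat * (g ^ p) ^ (m / (p : ℤ)) = g ^ m := by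
          rw [← zpow_natCast g p, ← zpow_mul, ← zpow_natCast g, ← zpow_add, Int.toNat_of_nonneg h16, Int.emod_add_mul_ediv]
        rw [← mul_assoc, h17]

end

end Pool.Agent.H94.A5
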