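import Pool.Agent.H94.A5.Up
import Pool.Agent.H72.A5.Main
import Pool.Agent.H28.TD.RatF

/-!
# Fields with group `A_5` in fields with group `S_n`, `n ≥ 13`
-/

open NumberField Module Equiv MulAction Polynomial Equiv.Perm
open Pool.Agent.H7.Artin Pool.Agent.H58.S2 Pool.Agent.H72.PM Pool.Agent.H72.E17
  Pool.Agent.H72.EG Pool.Agent.H72.A5 Pool.Agent.H72.SR Pool.Agent.H72.AF Pool.Agent.H28.TD
open scoped Nat

namespace Pool.Agent.H94.A5

set_option linter.unusedSectionVars false

section

variable {G X : Type} [Group G] [Fintype G] [Fintype X] [DecidableEq X]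
  (τ : G →* Perm X) (hτ : Function.Injective τ)

include hτ in
theorem exists_lift {Y : Type} [Group Y] (s : Y →* Perm X) (hs : Function.Injective s) (h : ∀ g, s g ∈ τ.range) :
    ∃ j : Y →* G, Function.Injective j ∧ ∀ g, τ (j g) = s g := by
  let e : G ≃* τ.range := MonoidHom.ofInjective hτ
  refine ⟨e.symm.toMonoidHom.comp (s.codRestrict τ.range h), ?_, fun g => ?_⟩
  · intro a b hab
    have h1 := e.symm.injective hab
    exact hs (congrArg Subtype.val h1)
  · have h1 : e (e.symm (s.codRestrict τ.range h g)) = s.codRestrict τ.range h g := e.apply_symm_apply _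
    exact congrArg Subtype.val h1

include hτ in
/-- the symmetric group of degree thirteen in `G` -/
theorem exists_j (h : (13 ≤ Fintype.card X ∧ Function.Surjective τ) ∨ (15 ≤ Fintype.card X ∧ alternatingGroup X ≤ τ.range)) :
    ∃ j : Perm (Fin 13) →* G, Function.Injective j ∧ ∀ g, sign g = 1 → fixn (τ (j g)) + 13 = Fintype.card X + fixn g := by
  classical
  rcases h with ⟨hn, hs⟩ | ⟨hn, hs⟩
  · obtain ⟨e⟩ : Nonempty (Fin 13 ↪ X) := Function.Embedding.nonempty_of_card_le (by rw [Fintype.card_fin]; exact hn)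
    obtain ⟨j, hj, h1⟩ := exists_lift τ hτ (viaEmbeddingHom e) (viaEmbeddingHom_injective e) fun g => hs _
    refine ⟨j, hj, fun g _ => ?_⟩
    rw [h1]
    exact fixn_viaEmbedding e g
  · obtain ⟨e⟩ : Nonempty (Fin 13 ⊕ Fin 2 ↪ X) := Function.Embedding.nonempty_of_card_le (by
      rw [Fintype.card_sum, Fintype.card_fin, Fintype.card_fin]
      exact hn)
    obtain ⟨j, hj, h1⟩ := exists_lift τ hτ ((viaEmbeddingHom e).comp evenHom) ((viaEmbeddingHom_injective e).comp evenHom_injective) fun g => by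
      apply hs
      rw [mem_alternatingGroup, MonoidHom.comp_apply, viaEmbeddingHom_apply]
      unfold viaEmbedding
      rw [sign_extendDomain]
      exact sign_evenHom g
    refine ⟨j, hj, fun g hg => ?_⟩
    rw [h1, MonoidHom.comp_apply]
    have h2 := fixn_viaEmbedding e (evenHom g)
    rw [fixn_evenHom g hg, Fintype.card_sum, Fintype.card_fin, Fintype.card_fin] at h2
    omega

end

section

variable {F L : Type} [Field F] [NumberField F] [Field L] [NumberField L] [Algebra F L]
  [IsGalois F L] (f : F[X]) [f.IsSplittingField F L]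

/-- `L(s, ρ) ^ N` is a finite product of L-functions `L(s, ψ)`, `ψ : Gal(L/E) → ℂˣ`, `E` between `F` and `L`. -/
def HeckeNth {F L : Type} [Field F] [NumberField F] [Field L] [NumberField L] [Algebra F L] [IsGalois F L]
    (N : ℕ) (K : IntermediateField F L) {V : Type} [AddCommGroup V] [Module ℂ V] [FiniteDimensional ℂ V]
    (ρ : Representation ℂ Gal(L/K) V) : Prop :=
  ∃ l : List (Σ E : IntermediateField F L, Gal(L/E) →* ℂˣ), ∀ s : ℂ, 1 < s.re →
    artinL K L ρ s ^ N = (l.map fun x => artinL x.1 L (Pool.Agent.H72.AF.linRep x.2) s).prod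

open Classical in
/-- **The field theorem.** -/
theorem thirteen (h0 : (13 ≤ f.natDegree ∧ (f.natDegree)! ≤ Nat.card Gal(L/F)) ∨
      (15 ≤ f.natDegree ∧ (f.natDegree)! ≤ 2 * Nat.card Gal(L/F)))
    (K : IntermediateField F L) (e : Gal(L/K) ≃* Alt5) (c3 : cyc f K 3 = 2) (c4 : cyc f K 4 = 2) (c5 : cyc f K 5 = 2)
    {V : Type} [AddCommGroup V] [Module ℂ V] [FiniteDimensional ℂ V] (ρ : Representation ℂ Gal(L/K) V) :
    ArtinFor K L ρ ∧ HeckeNth 378392 K ρ := by
  have hn : 13 ≤ f.natDegree := by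
    rcases h0 with h | h
    · exact h.1
    · exact le_trans (by norm_num) h.1
  have hcard : (f.natDegree)! ≤ 2 * Nat.card Gal(L/F) := by
    rcases h0 with h | h
    · have h1 := h.2
      omega
    · exact h.2
  have hf : f ≠ 0 := by
    rintro rfl
    rw [natDegree_zero] at hn
    omega
  have hroots := card_rootSet_eq2 (L := L) f (by omega) hcard
  have hinj := toPerm_injective (L := L) f
  have halt := alternating_le_range (L := L) f (by omega) hcard
  set τ := MulAction.toPermHom Gal(L/F) (f.rootSet L) with hτ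
  let ι : Alt5 →* Gal(L/F) :=
    (AlgEquiv.restrictScalarsHom F : Gal(L/K) →* Gal(L/F)).comp e.symm.toMonoidHom
  have hι : Function.Injective ι := (Pool.Agent.H72.EG.restrict_injective K).comp e.symm.injective
  have hr : (rootHom f K).range = (τ.comp ι).range := by
    ext s
    constructor
    · rintro ⟨g, rfl⟩
      exact ⟨e g, by
        change τ (AlgEquiv.restrictScalarsHom F (e.symm (e g))) = _
        rw [e.symm_apply_apply]
        rfl⟩
    · rintro ⟨g, rfl⟩
      exact ⟨e.symm g, rfl⟩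
  obtain ⟨o2, o3, o5, -⟩ := orders
  have f2 : fixn (τ (ι a2)) + 4 * cyc f K 4 = f.natDegree :=
    fixn_roots f hf hroots K (τ.comp ι) hr (fo_two (τ.comp ι))
  have f3 : fixn (τ (ι a3)) + 3 * cyc f K 3 = f.natDegree :=
    fixn_roots f hf hroots K (τ.comp ι) hr (fo_three (τ.comp ι))
  have f5 : fixn (τ (ι a5)) + 5 * cyc f K 5 = f.natDegree :=
    fixn_roots f hf hroots K (τ.comp ι) hr (fo_five (τ.comp ι))
  have p2 : (ι a2) ^ 2 = 1 := by
    rw [← map_pow, orderOf_dvd_iff_pow_eq_one.1 (dvd_of_eq o2), map_one]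
  have p3 : (ι a3) ^ 3 = 1 := by
    rw [← map_pow, orderOf_dvd_iff_pow_eq_one.1 (dvd_of_eq o3), map_one]
  have p5 : (ι a5) ^ 5 = 1 := by
    rw [← map_pow, orderOf_dvd_iff_pow_eq_one.1 (dvd_of_eq o5), map_one]
  have hc5 : OddCent (τ (ι a5)) := by
    refine oddCent_of_prime (p := 5) (by norm_num) (by rw [← map_pow, p5, map_one]) ?_
    rw [hroots]
    omega
  have h34 : ∀ θ : Gal(L/F) → ℂ, IsClass θ → θ (ι a5) = θ (ι (a5 ^ 2)) := by
    intro θ hθ
    rw [map_pow]
    symm
    refine class_eq_pow τ hinj halt ?_ hc5 hθ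
    rw [orderOf_injective ι hι, o5]
    norm_num
  have hj : (13 ≤ Fintype.card (f.rootSet L) ∧ Function.Surjective τ) ∨
      (15 ≤ Fintype.card (f.rootSet L) ∧ alternatingGroup (f.rootSet L) ≤ τ.range) := by
    rw [hroots]
    rcases h0 with ⟨h1, h2⟩ | ⟨h1, -⟩
    · refine Or.inl ⟨h1, ?_⟩
      have h3 : Nat.card (Perm (f.rootSet L)) = (f.natDegree)! := by
        rw [Nat.card_eq_fintype_card, Fintype.card_perm, hroots]
      have h4 : Nat.card Gal(L/F) ≤ Nat.card (Perm (f.rootSet L)) := Nat.card_le_card_of_injective _ hinj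
      exact ((Nat.bijective_iff_injective_and_card τ).2 ⟨hinj, by omega⟩).2
    · exact Or.inr ⟨h1, halt⟩
  obtain ⟨j, hj1, hj2⟩ := exists_j τ hinj hj
  have m4 := four_of τ hinj halt j hj1 hj2 (x3 := ι a3) (x5 := ι a5) p3 (by rw [hroots]; omega) p5 (by rw [hroots]; omega)
  have m3 := three_free τ hinj halt (x2 := ι a2) (x5 := ι a5) (a := cyc f K 5) (c := cyc f K 4) (by omega)
    (cyc_le f K) (by rw [hroots]; omega) p2 (by rw [hroots]; exact f2) p5
    (by rw [hroots]; exact f5)
  obtain ⟨n1, n4, n5, n3, h⟩ := ip_alt5 (show Representation ℂ Alt5 V from MonoidHom.comp ρ e.symm.toMonoidHom)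
  obtain ⟨l, hl⟩ := (((monoSum_one ι hι).nsmul (378392 * n1)).add (m4.nsmul n4)).add
    (((monoSum_five ι hι).nsmul (378392 * n5)).add (m3.nsmul (378392 * n3)))
  have key : ∀ θ : Gal(L/F) → ℂ, IsClass θ → ((378392 : ℕ) : ℂ) * ip (fun g : Gal(L/K) => θ (AlgEquiv.restrictScalarsHom F g)) ρ.character =
      (l.map fun x => ip θ (indChar x.1 x.2)).sum := by
    intro θ hθ
    have h1 : ip (fun g : Gal(L/K) => θ (AlgEquiv.restrictScalarsHom F g)) ρ.character =
        ip (fun g => θ (ι g)) (show Representation ℂ Alt5 V from MonoidHom.comp ρ e.symm.toMonoidHom).character := by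
      unfold ip
      rw [Nat.card_congr e.toEquiv]
      congr 1
      symm
      refine Fintype.sum_equiv e.symm.toEquiv _ _ fun s => ?_
      have h4 : (show Representation ℂ Alt5 V from
          MonoidHom.comp ρ e.symm.toMonoidHom).character s⁻¹ = ρ.character (e.symm s)⁻¹ := by
        rw [← map_inv]
        rfl
      rw [h4]
      rfl
    rw [h1, ← hl θ hθ, h _ (isClass_comp ι hθ) (h34 θ hθ)]
    simp only [repA_zero, repA_one, repA_two, repA_three, map_one]
    push_cast
    ring
  obtain ⟨h1, h2⟩ := power_field K ρ (N := 378392) (by norm_num) l key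
  refine ⟨h1, ?_⟩
  choose i hi using fun H : Subgroup Gal(L/F) => Pool.Agent.H58.S2.exists_fixed H
  refine ⟨l.map fun x => ⟨IntermediateField.fixedField x.1, x.2.comp (i x.1).toMonoidHom⟩, fun s hs => ?_⟩
  rw [h2 s hs, List.map_map]
  congr 1
  exact List.map_congr_left fun (x : Σ H : Subgroup Gal(L/F), H →* ℂˣ) _ => hi x.1 x.2 s hs

end

end Pool.Agent.H94.A5
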