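import Pool.Agent.H94.A5.Col

/-!
# Sums of roots of unity
-/

open Module Equiv Equiv.Perm
open Pool.Agent.H7.Artin Pool.Agent.H58.S2 Pool.Agent.H72.A5

namespace Pool.Agent.H94.A5

theorem ram_of {E : ℕ} {w : List ℤ} (y : ℂ) (hy : y ≠ 0) (hE : y ^ E = 1) (J : List ℕ)
    (h : ∀ e < E, (J.map fun j => y ^ (j * e)).sum = ((w.getD e 0 : ℤ) : ℂ)) : Ram E w := by
  refine ⟨(Units.mk0 y hy)⁻¹, J, ?_, fun e he => ?_⟩
  · rw [inv_pow, inv_eq_one]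
    refine Units.ext ?_
    rw [Units.val_pow_eq_pow_val, Units.val_mk0, hE, Units.val_one]
  · rw [← h e he]
    refine congrArg List.sum (List.map_congr_left fun j _ => ?_)
    rw [inv_pow, inv_inv, Units.val_pow_eq_pow_val, Units.val_mk0]

/-- weights for `E = 2` -/
def w2 : List ℤ := [1, -1]

theorem ram2 : Ram 2 w2 := by
  have hy := Complex.isPrimitiveRoot_exp 2 (by norm_num)
  generalize Complex.exp (2 * Real.pi * Complex.I / (2 : ℕ)) = y at hy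
  have hc : y + 1 = 0 := by
    have h1 : y ^ 2 = 1 := hy.pow_eq_one
    have h2 : y ≠ 1 := hy.ne_one (by norm_num)
    have h3 : (y - 1) * (y + 1) = 0 := by linear_combination h1
    exact (mul_eq_zero.1 h3).resolve_left (sub_ne_zero.2 h2)
  refine ram_of y (hy.ne_zero (by norm_num)) hy.pow_eq_one [1] fun e he => ?_
  interval_cases e

  · change y ^ 0 + 0 = ((1 : ℤ) : ℂ)
    push_cast
    linear_combination (0) * hc

  · change y ^ 1 + 0 = ((-1 : ℤ) : ℂ)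
    push_cast
    linear_combination (1) * hc

/-- weights for `E = 3` -/
def w3 : List ℤ := [2, -1, -1]

theorem ram3 : Ram 3 w3 := by
  have hy := Complex.isPrimitiveRoot_exp 3 (by norm_num)
  generalize Complex.exp (2 * Real.pi * Complex.I / (3 : ℕ)) = y at hy
  have hc : 1 + y + y ^ 2 = 0 := by
    have h1 : y ^ 3 = 1 := hy.pow_eq_one
    have h2 : y ≠ 1 := hy.ne_one (by norm_num)
    have h3 : (y - 1) * (1 + y + y ^ 2) = 0 := by linear_combination h1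
    exact (mul_eq_zero.1 h3).resolve_left (sub_ne_zero.2 h2)
  refine ram_of y (hy.ne_zero (by norm_num)) hy.pow_eq_one [1, 2] fun e he => ?_
  interval_cases e

  · change y ^ 0 + (y ^ 0 + 0) = ((2 : ℤ) : ℂ)
    push_cast
    linear_combination (0) * hc

  · change y ^ 1 + (y ^ 2 + 0) = ((-1 : ℤ) : ℂ)
    push_cast
    linear_combination (1) * hc

  · change y ^ 2 + (y ^ 4 + 0) = ((-1 : ℤ) : ℂ)
    push_cast
    linear_combination (1 - y + y ^ 2) * hc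

/-- weights for `E = 5` -/
def w5 : List ℤ := [4, -1, -1, -1, -1]

theorem ram5 : Ram 5 w5 := by
  have hy := Complex.isPrimitiveRoot_exp 5 (by norm_num)
  generalize Complex.exp (2 * Real.pi * Complex.I / (5 : ℕ)) = y at hy
  have hc : 1 + y + y ^ 2 + y ^ 3 + y ^ 4 = 0 := by
    have h1 : y ^ 5 = 1 := hy.pow_eq_one
    have h2 : y ≠ 1 := hy.ne_one (by norm_num)
    have h3 : (y - 1) * (1 + y + y ^ 2 + y ^ 3 + y ^ 4) = 0 := by linear_combination h1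
    exact (mul_eq_zero.1 h3).resolve_left (sub_ne_zero.2 h2)
  refine ram_of y (hy.ne_zero (by norm_num)) hy.pow_eq_one [1, 2, 3, 4] fun e he => ?_
  interval_cases e

  · change y ^ 0 + (y ^ 0 + (y ^ 0 + (y ^ 0 + 0))) = ((4 : ℤ) : ℂ)
    push_cast
    linear_combination (0) * hc

  · change y ^ 1 + (y ^ 2 + (y ^ 3 + (y ^ 4 + 0))) = ((-1 : ℤ) : ℂ)
    push_cast
    linear_combination (1) * hc

  · change y ^ 2 + (y ^ 4 + (y ^ 6 + (y ^ 8 + 0))) = ((-1 : ℤ) : ℂ)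
    push_cast
    linear_combination (1 - y + y ^ 2 - y ^ 3 + y ^ 4) * hc

  · change y ^ 3 + (y ^ 6 + (y ^ 9 + (y ^ 12 + 0))) = ((-1 : ℤ) : ℂ)
    push_cast
    linear_combination (1 - y + y ^ 3 - y ^ 4 + y ^ 5 - y ^ 7 + y ^ 8) * hc

  · change y ^ 4 + (y ^ 8 + (y ^ 12 + (y ^ 16 + 0))) = ((-1 : ℤ) : ℂ)
    push_cast
    linear_combination (1 - y + y ^ 4 - y ^ 6 + y ^ 8 - y ^ 11 + y ^ 12) * hc

/-- weights for `E = 6` -/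
def w6 : List ℤ := [2, 1, -1, -2, -1, 1]

theorem ram6 : Ram 6 w6 := by
  have hy := Complex.isPrimitiveRoot_exp 6 (by norm_num)
  generalize Complex.exp (2 * Real.pi * Complex.I / (6 : ℕ)) = y at hy
  have hc : 1 - y + y ^ 2 = 0 := by
    have h1 : y ^ 6 = 1 := hy.pow_eq_one
    have h2 : y ^ 3 ≠ 1 := hy.pow_ne_one_of_pos_of_lt (by norm_num) (by norm_num)
    have h4 : y ^ 2 ≠ 1 := hy.pow_ne_one_of_pos_of_lt (by norm_num) (by norm_num)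
    have h5 : y + 1 ≠ 0 := by
      intro h
      apply h4
      linear_combination (y - 1) * h
    have h6 : y ^ 3 - 1 ≠ 0 := sub_ne_zero.2 h2
    have h3 : (y ^ 3 - 1) * ((y + 1) * (1 - y + y ^ 2)) = 0 := by linear_combination h1
    exact (mul_eq_zero.1 ((mul_eq_zero.1 h3).resolve_left h6)).resolve_left h5
  refine ram_of y (hy.ne_zero (by norm_num)) hy.pow_eq_one [1, 5] fun e he => ?_
  interval_cases e

  · change y ^ 0 + (y ^ 0 + 0) = ((2 : ℤ) : ℂ)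
    push_cast
    linear_combination (0) * hc

  · change y ^ 1 + (y ^ 5 + 0) = ((1 : ℤ) : ℂ)
    push_cast
    linear_combination (-1 + y ^ 2 + y ^ 3) * hc

  · change y ^ 2 + (y ^ 10 + 0) = ((-1 : ℤ) : ℂ)
    push_cast
    linear_combination (1 + y + y ^ 2 - y ^ 4 - y ^ 5 + y ^ 7 + y ^ 8) * hc

  · change y ^ 3 + (y ^ 15 + 0) = ((-2 : ℤ) : ℂ)
    push_cast
    linear_combination (2 + 2 * y - y ^ 3 - y ^ 4 + y ^ 6 + y ^ 7 - y ^ 9 - y ^ 10 + y ^ 12 + y ^ 13) * hc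

  · change y ^ 4 + (y ^ 20 + 0) = ((-1 : ℤ) : ℂ)
    push_cast
    linear_combination (1 + y - y ^ 3 + y ^ 5 + y ^ 6 - y ^ 8 - y ^ 9 + y ^ 11 + y ^ 12 - y ^ 14 - y ^ 15 + y ^ 17 + y ^ 18) * hc

  · change y ^ 5 + (y ^ 25 + 0) = ((1 : ℤ) : ℂ)
    push_cast
    linear_combination (-1 - y + y ^ 3 + y ^ 4 + y ^ 5 - y ^ 7 - y ^ 8 + y ^ 10 + y ^ 11 - y ^ 13 - y ^ 14 + y ^ 16 + y ^ 17 - y ^ 19 - y ^ 20 + y ^ 22 + y ^ 23) * hc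

/-- weights for `E = 10` -/
def w10 : List ℤ := [4, 1, -1, 1, -1, -4, -1, 1, -1, 1]

theorem ram10 : Ram 10 w10 := by
  have hy := Complex.isPrimitiveRoot_exp 10 (by norm_num)
  generalize Complex.exp (2 * Real.pi * Complex.I / (10 : ℕ)) = y at hy
  have hc : 1 - y + y ^ 2 - y ^ 3 + y ^ 4 = 0 := by
    have h1 : y ^ 10 = 1 := hy.pow_eq_one
    have h2 : y ^ 5 ≠ 1 := hy.pow_ne_one_of_pos_of_lt (by norm_num) (by norm_num)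
    have h4 : y ^ 2 ≠ 1 := hy.pow_ne_one_of_pos_of_lt (by norm_num) (by norm_num)
    have h5 : y + 1 ≠ 0 := by
      intro h
      apply h4
      linear_combination (y - 1) * h
    have h6 : y ^ 5 - 1 ≠ 0 := sub_ne_zero.2 h2
    have h3 : (y ^ 5 - 1) * ((y + 1) * (1 - y + y ^ 2 - y ^ 3 + y ^ 4)) = 0 := by linear_combination h1
    exact (mul_eq_zero.1 ((mul_eq_zero.1 h3).resolve_left h6)).resolve_left h5
  refine ram_of y (hy.ne_zero (by norm_num)) hy.pow_eq_one [1, 3, 7, 9] fun e he => ?_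
  interval_cases e

  · change y ^ 0 + (y ^ 0 + (y ^ 0 + (y ^ 0 + 0))) = ((4 : ℤ) : ℂ)
    push_cast
    linear_combination (0) * hc

  · change y ^ 1 + (y ^ 3 + (y ^ 7 + (y ^ 9 + 0))) = ((1 : ℤ) : ℂ)
    push_cast
    linear_combination (-1 + y ^ 2 + y ^ 3 + y ^ 4 + y ^ 5) * hc

  · change y ^ 2 + (y ^ 6 + (y ^ 14 + (y ^ 18 + 0))) = ((-1 : ℤ) : ℂ)
    push_cast
    linear_combination (1 + y + y ^ 2 + y ^ 3 - y ^ 5 - y ^ 8 + y ^ 10 + y ^ 13 + y ^ 14) * hc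

  · change y ^ 3 + (y ^ 9 + (y ^ 21 + (y ^ 27 + 0))) = ((1 : ℤ) : ℂ)
    push_cast
    linear_combination (-1 - y + y ^ 3 + y ^ 4 + y ^ 5 + y ^ 6 - y ^ 8 - y ^ 11 + y ^ 13 + y ^ 16 - y ^ 18 + y ^ 22 + y ^ 23) * hc

  · change y ^ 4 + (y ^ 12 + (y ^ 28 + (y ^ 36 + 0))) = ((-1 : ℤ) : ℂ)
    push_cast
    linear_combination (1 + y + y ^ 4 - y ^ 6 - y ^ 9 + y ^ 11 + y ^ 12 + y ^ 13 + y ^ 14 - y ^ 16 - y ^ 17 - y ^ 18 - y ^ 19 + y ^ 21 + y ^ 22 + y ^ 23 + y ^ 24 - y ^ 26 - y ^ 27 + y ^ 31 + y ^ 32) * hc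

  · change y ^ 5 + (y ^ 15 + (y ^ 35 + (y ^ 45 + 0))) = ((-4 : ℤ) : ℂ)
    push_cast
    linear_combination (4 + 4 * y - 3 * y ^ 5 - 3 * y ^ 6 + 3 * y ^ 10 + 3 * y ^ 11 - 2 * y ^ 15 - 2 * y ^ 16 + 2 * y ^ 20 + 2 * y ^ 21 - 2 * y ^ 25 - 2 * y ^ 26 + 2 * y ^ 30 + 2 * y ^ 31 - y ^ 35 - y ^ 36 + y ^ 40 + y ^ 41) * hc

  · change y ^ 6 + (y ^ 18 + (y ^ 42 + (y ^ 54 + 0))) = ((-1 : ℤ) : ℂ)
    push_cast
    linear_combination (1 + y - y ^ 5 + y ^ 7 + y ^ 10 - y ^ 12 - y ^ 15 + y ^ 17 + y ^ 18 + y ^ 19 + y ^ 20 - y ^ 22 - y ^ 23 - y ^ 24 - y ^ 25 + y ^ 27 + y ^ 28 + y ^ 29 + y ^ 30 - y ^ 32 - y ^ 33 - y ^ 34 - y ^ 35 + y ^ 37 + y ^ 38 + y ^ 39 + y ^ 40 - y ^ 44 - y ^ 45 + y ^ 49 + y ^ 50) * hc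

  · change y ^ 7 + (y ^ 21 + (y ^ 49 + (y ^ 63 + 0))) = ((1 : ℤ) : ℂ)
    push_cast
    linear_combination (-1 - y + y ^ 5 + y ^ 6 + y ^ 7 + y ^ 8 - y ^ 10 - y ^ 11 - y ^ 12 - y ^ 13 + y ^ 15 + y ^ 16 + y ^ 17 + y ^ 18 - y ^ 20 - y ^ 23 + y ^ 25 + y ^ 28 - y ^ 30 - y ^ 33 + y ^ 35 + y ^ 38 - y ^ 40 - y ^ 43 + y ^ 45 + y ^ 48 + y ^ 49 - y ^ 53 - y ^ 54 + y ^ 58 + y ^ 59) * hc

  · change y ^ 8 + (y ^ 24 + (y ^ 56 + (y ^ 72 + 0))) = ((-1 : ℤ) : ℂ)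
    push_cast
    linear_combination (1 + y - y ^ 5 - y ^ 6 + y ^ 8 + y ^ 9 + y ^ 10 + y ^ 11 - y ^ 13 - y ^ 14 - y ^ 15 - y ^ 16 + y ^ 18 + y ^ 19 + y ^ 20 + y ^ 21 - y ^ 23 - y ^ 26 + y ^ 28 + y ^ 31 - y ^ 33 - y ^ 36 + y ^ 38 + y ^ 41 - y ^ 43 - y ^ 46 + y ^ 48 + y ^ 51 - y ^ 53 + y ^ 57 + y ^ 58 - y ^ 62 - y ^ 63 + y ^ 67 + y ^ 68) * hc

  · change y ^ 9 + (y ^ 27 + (y ^ 63 + (y ^ 81 + 0))) = ((1 : ℤ) : ℂ)
    push_cast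
    linear_combination (-1 - y + y ^ 5 + y ^ 6 + y ^ 9 - y ^ 11 - y ^ 14 + y ^ 16 + y ^ 19 - y ^ 21 - y ^ 24 + y ^ 26 + y ^ 27 + y ^ 28 + y ^ 29 - y ^ 31 - y ^ 32 - y ^ 33 - y ^ 34 + y ^ 36 + y ^ 37 + y ^ 38 + y ^ 39 - y ^ 41 - y ^ 42 - y ^ 43 - y ^ 44 + y ^ 46 + y ^ 47 + y ^ 48 + y ^ 49 - y ^ 51 - y ^ 52 - y ^ 53 - y ^ 54 + y ^ 56 + y ^ 57 + y ^ 58 + y ^ 59 - y ^ 61 - y ^ 62 + y ^ 66 + y ^ 67 - y ^ 71 - y ^ 72 + y ^ 76 + y ^ 77) * hc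

end Pool.Agent.H94.A5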