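import Pool.Agent.H72.A5.Trans
import Pool.Agent.H72.A5.ThreeF
import Pool.Agent.H94.A5.Comb

/-!
# From the symmetric group of degree thirteen to larger groups
-/

open Module Equiv Equiv.Perm
open Pool.Agent.H7.Artin Pool.Agent.H58.S2 Pool.Agent.H72.PM Pool.Agent.H72.A5

namespace Pool.Agent.H94.A5

set_option linter.unusedSectionVars false

theorem MonoSum.map {G G' : Type} [Group G] [Fintype G] [Group G'] [Fintype G'] (j : G →* G') (hj : Function.Injective j)
    {T : (G → ℂ) → ℂ} (h : MonoSum G T) : MonoSum G' fun θ => T fun g => θ (j g) := by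
  classical
  obtain ⟨l, hl⟩ := h
  refine (MonoSum.list (fun (x : Σ H : Subgroup G, H →* ℂˣ) θ => ip (fun g => θ (j g)) (indChar x.1 x.2)) l
    fun x _ => ?_).congr fun θ hθ => ?_
  · refine (MonoSum.piece (j.comp x.1.subtype) (hj.comp Subtype.val_injective) x.2).congr fun θ hθ => ?_
    have hc : IsClass fun g => θ (j g) := by
      intro g y
      simp only [map_mul, map_inv]
      exact hθ _ _
    have h1 := ip_indChar (fun g => θ (j g)) hc x.1 x.2
    exact h1
  · refine hl (fun g => θ (j g)) ?_
    intro g y
    simp only [map_mul, map_inv]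
    exact hθ _ _

def countFix (c : ℕ) : ℕ := (Finset.univ.filter fun i : Fin 13 => dig c i.val = i.val).card

theorem fixn_code {c : ℕ} {g : Perm (Fin 13)} (hg : pcode g = c) : fixn g = countFix c := by
  unfold fixn countFix
  refine congrArg Finset.card (Finset.ext fun i => ?_)
  rw [Finset.mem_filter, Finset.mem_filter, ← hg, dig_pcode, Fin.ext_iff]

theorem exists_r3 : ∃ g : Perm (Fin 13), pcode g = 3582863701524513 ∧ g ^ 3 = 1 ∧ fixn g = 7 ∧ sign g = 1 := by
  have h : isPerm 3582863701524513 (comp 3582863701524513 3582863701524513) = true := by decide +kernel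
  obtain ⟨g, hg⟩ := exists_perm h
  have h3 : g ^ 3 = 1 := by
    apply pcode_inj
    rw [pow_succ, pow_two, ← comp_pcode, ← comp_pcode, hg, pcode_one]
    decide +kernel
  refine ⟨g, hg, h3, ?_, ?_⟩
  · rw [fixn_code hg]
    decide +kernel
  · have h4 : (sign g) ^ 3 = 1 := by rw [← map_pow, h3, map_one]
    rcases Int.units_eq_one_or (sign g) with h5 | h5
    · exact h5
    · rw [h5] at h4
      exact absurd h4 (by decide)

theorem exists_r5 : ∃ g : Perm (Fin 13), pcode g = 3582593406616353 ∧ g ^ 5 = 1 ∧ fixn g = 3 ∧ sign g = 1 := by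
  have h : isPerm 3582593406616353 (comp (comp 3582593406616353 3582593406616353) (comp 3582593406616353 3582593406616353)) = true := by
    decide +kernel
  obtain ⟨g, hg⟩ := exists_perm h
  have h3 : g ^ 5 = 1 := by
    apply pcode_inj
    rw [pow_succ, pow_succ, pow_succ, pow_two, ← comp_pcode, ← comp_pcode, ← comp_pcode, ← comp_pcode, hg, pcode_one]
    decide +kernel
  refine ⟨g, hg, h3, ?_, ?_⟩
  · rw [fixn_code hg]
    decide +kernel
  · have h4 : (sign g) ^ 5 = 1 := by rw [← map_pow, h3, map_one]
    rcases Int.units_eq_one_or (sign g) with h5 | h5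
    · exact h5
    · rw [h5] at h4
      exact absurd h4 (by decide)

section

variable {G X : Type} [Group G] [Fintype G] [Fintype X] [DecidableEq X]
  (τ : G →* Perm X) (hτ : Function.Injective τ) (halt : alternatingGroup X ≤ τ.range)

include hτ halt in
/-- the irreducible character of degree four -/
theorem four_of (j : Perm (Fin 13) →* G) (hj : Function.Injective j)
    (hfix : ∀ g, sign g = 1 → fixn (τ (j g)) + 13 = Fintype.card X + fixn g)
    {x3 x5 : G} (h3 : x3 ^ 3 = 1) (hx3 : fixn (τ x3) + 6 = Fintype.card X)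
    (h5 : x5 ^ 5 = 1) (hx5 : fixn (τ x5) + 10 = Fintype.card X) :
    MonoSum G fun θ => ((378392 : ℕ) : ℂ) * ((60 : ℂ)⁻¹ * (4 * θ 1 + 20 * θ x3 - 24 * θ x5)) := by
  obtain ⟨r3, hr3, h33, hf3, hs3⟩ := exists_r3
  obtain ⟨r5, hr5, h55, hf5, hs5⟩ := exists_r5
  refine (MonoSum.map j hj combination).congr fun θ hθ => ?_
  have e1 : tc (fun g => θ (j g)) 3582863703552528 = θ 1 := by
    have h : (3582863703552528 : ℕ) = idc := by decide +kernel
    rw [h, ← pcode_one, tc_pcode, map_one]
  have e3 : tc (fun g => θ (j g)) 3582863701524513 = θ x3 := by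
    rw [← hr3, tc_pcode]
    have hfx := hfix r3 hs3
    refine class_eq_of_prime τ hτ halt (p := 3) (by norm_num) (by rw [← map_pow, h33, map_one]) h3 (by omega) ?_ hθ
    exact oddCent_of_prime (p := 3) (by norm_num) (by rw [← map_pow, ← map_pow, h33, map_one, map_one]) (by omega)
  have e5 : tc (fun g => θ (j g)) 3582593406616353 = θ x5 := by
    rw [← hr5, tc_pcode]
    have hfx := hfix r5 hs5
    refine class_eq_of_prime τ hτ halt (p := 5) (by norm_num) (by rw [← map_pow, h55, map_one]) h5 (by omega) ?_ hθ
    exact oddCent_of_prime (p := 5) (by norm_num) (by rw [← map_pow, ← map_pow, h55, map_one, map_one]) (by omega)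
  rw [e1, e3, e5]

end

/-- the number of fixed points of an extended permutation -/
theorem fixn_viaEmbedding {Y X : Type} [Fintype Y] [Fintype X] [DecidableEq Y] [DecidableEq X] (e : Y ↪ X) (g : Perm Y) :
    fixn (viaEmbeddingHom e g) + Fintype.card Y = Fintype.card X + fixn g := by
  classical
  have h0 : ∀ {Z : Type} [Fintype Z] [DecidableEq Z] (s : Perm Z), fixn s + (Finset.univ.filter fun x => ¬ s x = x).card = Fintype.card Z := by
    intro Z _ _ s
    have h3 := Finset.card_filter_add_card_filter_not (s := (Finset.univ : Finset Z)) (fun x => s x = x)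
    rw [Finset.card_univ] at h3
    exact h3
  have h1 := h0 g
  have h2 := h0 (viaEmbeddingHom e g)
  have h3 : (Finset.univ.filter fun x => ¬ viaEmbeddingHom e g x = x) = (Finset.univ.filter fun x => ¬ g x = x).map e := by
    ext x
    simp only [Finset.mem_filter, Finset.mem_univ, true_and, Finset.mem_map]
    rw [viaEmbeddingHom_apply]
    constructor
    · intro hx
      by_cases hr : x ∈ Set.range e
      · obtain ⟨y, rfl⟩ := hr
        rw [viaEmbedding_apply] at hx
        exact ⟨y, fun h => hx (by rw [h]), rfl⟩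
      · exact absurd (viaEmbedding_apply_of_notMem g e x hr) hx
    · rintro ⟨y, hy, rfl⟩ h
      rw [viaEmbedding_apply] at h
      exact hy (e.injective h)
  rw [h3, Finset.card_map] at h2
  omega

/-- the sign as a permutation -/
def eps : ℤˣ →* Perm (Fin 2) where
  toFun u := if u = 1 then 1 else swap 0 1
  map_one' := by decide
  map_mul' := by decide

/-- embedding in an alternating group -/
def evenHom : Perm (Fin 13) →* Perm (Fin 13 ⊕ Fin 2) :=
  (sumCongrHom (Fin 13) (Fin 2)).comp (MonoidHom.prod (MonoidHom.id _) (eps.comp sign))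

theorem evenHom_injective : Function.Injective evenHom := by
  intro g h e
  have h1 := sumCongrHom_injective e
  exact (Prod.ext_iff.1 h1).1

theorem sign_evenHom (g : Perm (Fin 13)) : sign (evenHom g) = 1 := by
  change sign (Equiv.Perm.sumCongr g (eps (sign g))) = 1
  rw [sign_sumCongr]
  generalize sign g = u
  revert u
  decide

theorem fixn_evenHom (g : Perm (Fin 13)) (hg : sign g = 1) : fixn (evenHom g) = fixn g + 2 := by
  have h1 : evenHom g = Equiv.Perm.sumCongr g 1 := by
    change Equiv.Perm.sumCongr g (eps (sign g)) = _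
    rw [hg, map_one]
  rw [h1]
  unfold fixn
  rw [Finset.card_filter, Finset.card_filter, Fintype.sum_sum_type]
  simp

end Pool.Agent.H94.A5
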